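import Pool.Agent.X252.LX

/-!
# The least `l`-adic valuation of the central values over abelian fields of exponent `l ^ n`

`E_i : y² = x³ + a_i x + b_i` (`i = 1, …, m`) are elliptic curves over `ℚ`, given with their newforms
`f_i`, and `l` is a prime.  The characters below are the Dirichlet characters of order dividing `l ^ n`
and of squarefree conductors composed of primes `q` with `q ∤ 2Δ_i` and `l ∤ #E_i(ℤ/q)` for all `i`.

For a tuple `c = (c_1, …, c_r)` of such characters and a finite set `S` of pairs `(i, J)`, `J ∈ ℕ^r`, let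

`B(c) = ∏_{(i, J) ∈ S} g(c^{-J}) L(f_i, c^J, 1)`, `c^J = ∏ c_j^{J_j}`,

with the Gauss sums `g`.  If `S` is the set of all `(i, J)` with `0 ≤ J_j < l ^ n` and `c` freely
generates its group, then `B(c)` is, up to a root of unity, the product over `i` of
`√|d_F| L(E_i/F, 1)` for the field `F` with Galois group `(ℤ/l^n)^r` attached to `c`: this is the
numerator of the quotient of Birch and Swinnerton-Dyer.  The numbers `B(c)` lie in the `ℤ[ζ]`-module
`Λ` generated by the products of the periods of the forms `f_i`, where `ζ` is a root of unity of order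
`l ^ n`; `π = 1 - ζ` generates the prime of `ℤ[ζ]` above `l`.

Theorem: if `B(c0) ≠ 0` for some tuple `c0`, then `B(c0) ∉ π^(V+1) Λ` for some `V`.  For every group `H`
of characters and every such tuple `c0` in `H ^ r` there is a `μ ≤ V` such that `π^μ` divides `B(c)` in
`Λ` for all `c ∈ H ^ r` and the following holds for the tuples `c` of least valuation, i.e. with
`B(c) ∉ π^(μ+1) Λ`.  Write `μ = A (l - 1) + R` with `0 ≤ R < l - 1` and put
`δ = (l - R) / l^(A + 1)`; so `δ = 1 - μ/l` for `μ < l - 1`, and `δ = 2^(-μ)` for `l = 2`.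

* There is a finite set `K` in `H ^ r`, `|K| ≤ l^(nμ)`, such that for every `c ∈ H ^ r` at least
  `δ |K|` of the translates `c k`, `k ∈ K`, have least valuation.
* If `H` is finite, then at least `δ |H| ^ r` of the tuples in `H ^ r` have least valuation.
* In general, the number of the tuples of least valuation in `H ^ r` with conductors at most `B0 X` is
  at least `δ` times the number of all tuples in `H ^ r` with conductors at most `X`.

If `B(c) ≠ 0` and `S` contains all `(i, J)`, `0 ≤ J_j < l ^ n`, then `L(E_i/F, s)` is entire with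
`L(E_i/F, 1) ≠ 0` for all number fields `F` contained in the field attached to `c`.

The proof.  By the earlier library (`Pool.Agent.Y18.LP`) the function `c ↦ B(c)` agrees on finite sets,
up to factors that are units modulo `π`, with combinations of characters of `H ^ r` with coefficients in
`Λ`; differences increase the valuation.  So the leading coefficient `B(c) / π^μ` modulo `π` is a
polynomial function of degree at most `μ` on `H ^ r` with values in an `𝔽_l`-vector space.  The new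
ingredient is the bound of the Reed-Muller codes for polynomial functions on all abelian groups of
exponent `l ^ n` (`Pool.Agent.X252.RM`).
-/

set_option autoImplicit false

open UpperHalfPlane MatrixGroups CongruenceSubgroup NumberField IsDedekindDomain Topology

namespace Pool.Agent.Results.MP_e996df_nt.LeastValuation

/-- `N_p`: the number of pairs `(x, y) ∈ (ℤ/p)²` with `y² = x³ + a x + b`. -/
noncomputable def pointCount (a b : ℤ) (p : ℕ) : ℕ :=
  Nat.card {q : ZMod p × ZMod p // q.2 ^ 2 = q.1 ^ 3 + (a : ZMod p) * q.1 + (b : ZMod p)}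

/-- `p` is a prime not dividing `2 Δ`, `Δ = -4 a³ - 27 b²`. -/
def GoodPrime (a b : ℤ) (p : ℕ) : Prop :=
  p.Prime ∧ ¬ ((p : ℤ) ∣ 2 * (-4 * a ^ 3 - 27 * b ^ 2))

/-- `q` is a prime, `q ∤ 2 Δ`, and `l` does not divide the number `N_q + 1` of the points of `E` over
`ℤ/q` (with the point at infinity). -/
def Admissible (a b : ℤ) (l q : ℕ) : Prop := GoodPrime a b q ∧ ¬ l ∣ pointCount a b q + 1

/-- The families `c = (c_q)` of characters `c_q` of the groups `(ℤ/q)ˣ`.  The family with `c_q = 1`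
except for the primes `q` of a finite set stands for the Dirichlet character `χ_c = ∏ c_q` of
squarefree conductor; this is an isomorphism of groups. -/
abbrev Fam : Type := (q : ℕ) → (ZMod q)ˣ →* ℂˣ

open Classical in
/-- The set of the `q` with `c_q ≠ 1` (if it is finite). -/
noncomputable def supp (c : Fam) : Finset ℕ :=
  if h : {q | c q ≠ 1}.Finite then h.toFinset else ∅

/-- The conductor of `χ_c`. -/
noncomputable def conductor (c : Fam) : ℕ := ∏ q ∈ supp c, q

/-- The value `χ_c(m)`. -/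
noncomputable def value (c : Fam) (m : ℕ) : ℂ :=
  ∏ q ∈ supp c, if h : m.Coprime q then (c q (ZMod.unitOfCoprime m h) : ℂ) else 0

open Classical in
/-- The Gaussian period `∑ exp(2 π i u / M)`, `0 ≤ u < M`, `χ_c(u) = 1`, where `M` is the conductor of
`χ_c`.  It generates the cyclic extension of `ℚ` attached to `χ_c` (the subfield of `ℚ(exp(2 π i / M))`
fixed by the kernel of `χ_c`; recall that `M` is squarefree). -/
noncomputable def period (c : Fam) : ℂ :=
  ∑ u ∈ (Finset.range (conductor c)).filter (fun u => value c u = 1),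
    Complex.exp (2 * Real.pi * Complex.I / (conductor c : ℕ)) ^ u

/-- `H` is a group of Dirichlet characters of order dividing `l ^ n` and of squarefree conductors
composed of primes admissible for all the curves. -/
structure IsCharGroup {m : ℕ} (a b : Fin m → ℤ) (l n : ℕ) (H : Subgroup Fam) : Prop where
  pow : ∀ c ∈ H, c ^ (l ^ n) = 1
  finite : ∀ c ∈ H, {q | c q ≠ 1}.Finite
  admissible : ∀ c ∈ H, ∀ q, c q ≠ 1 → q.Prime ∧ ∀ i, Admissible (a i) (b i) l q

/-- The `n`-th Fourier coefficient of `f`. -/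
noncomputable def coef {N : ℕ} (f : CuspForm (Gamma0 N : Subgroup (GL (Fin 2) ℝ)) 2) (n : ℕ) : ℂ :=
  (qExpansion 1 f).coeff n

/-- `f ∈ S_2(Γ₀(N))` is the newform of the elliptic curve `E : y² = x³ + a x + b`, with its standard
properties: the Fourier coefficients `c(n)` of `f` are real with `c(1) = 1`, they satisfy the Hecke
relations `c(mn) = c(m) c(n)` for coprime `m`, `n` and `c(p^(j+2)) = c(p) c(p^(j+1)) - p c(p^j)`
(without the last term if `p ∣ N`) and the bounds `|c(p)| ≤ 2√p` for `p ∤ N`, `|c(p)| ≤ 1` for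
`p ∣ N`; `f` is an eigenfunction of the Fricke involution: `f(-1/(Nτ)) = -w N τ² f(τ)` with `w = ±1`;
for all primes `p ∤ 2Δ` one has `p ∤ N` and `c(p) = a_p(E)`.  (Every elliptic curve over `ℚ` has such a
form by the modularity theorem.) -/
structure IsFormOf (a b : ℤ) (N : ℕ) (f : CuspForm (Gamma0 N : Subgroup (GL (Fin 2) ℝ)) 2) :
    Prop where
  one : coef f 1 = 1
  real : ∀ n, (coef f n).im = 0
  mul : ∀ m n : ℕ, Nat.Coprime m n → coef f (m * n) = coef f m * coef f n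
  pow : ∀ p j : ℕ, p.Prime → coef f (p ^ (j + 2)) = coef f p * coef f (p ^ (j + 1)) -
      (if p ∣ N then 0 else (p : ℂ) * coef f (p ^ j))
  good : ∀ p : ℕ, p.Prime → ¬ p ∣ N → ‖coef f p‖ ≤ 2 * Real.sqrt p
  bad : ∀ p : ℕ, p.Prime → p ∣ N → ‖coef f p‖ ≤ 1
  fricke : ∃ w : ℝ, (w = 1 ∨ w = -1) ∧ ∀ τ τ' : ℍ, (τ' : ℂ) * ((N : ℂ) * (τ : ℂ)) = -1 →
    f τ' = -(w : ℂ) * (N : ℂ) * (τ : ℂ) ^ 2 * f τ
  points : ∀ p : ℕ, GoodPrime a b p → ¬ p ∣ N ∧ coef f p = (p : ℂ) - (pointCount a b p : ℂ)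

/-- `pw t u n = α ^ n + β ^ n`, where `α`, `β` are the roots of `X² - t X + u`. -/
noncomputable def pw (t u : ℂ) : ℕ → ℂ
  | 0 => 2
  | 1 => t
  | n + 2 => t * pw t u (n + 1) - u * pw t u n

section
variable {F : Type} [Field F] [NumberField F]

/-- The number `a_v` of `E : y² = x³ + a x + b` at a finite place `v` of `F`: `Nv` minus the number of
affine solutions `(x, y)` of the equation over the residue field `𝓞 F / v`. -/
noncomputable def av (a b : ℤ) (v : HeightOneSpectrum (𝓞 F)) : ℤ :=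
  ((Ideal.absNorm v.asIdeal : ℕ) : ℤ) -
    ((Nat.card {x : (𝓞 F ⧸ v.asIdeal) × (𝓞 F ⧸ v.asIdeal) //
      x.2 ^ 2 = x.1 ^ 3 + (a : 𝓞 F ⧸ v.asIdeal) * x.1 + (b : 𝓞 F ⧸ v.asIdeal)} : ℕ) : ℤ)

open Classical in
/-- The Euler factor of `L(E/F, s)` at the finite place `v` of `F`.  If `v ∤ 2 Δ`, it is
`(1 - a_v (Nv)^(-s) + (Nv)^(1-2s))⁻¹`.  If `v ∣ 2 Δ` and `Nv = p ^ d` with `p` prime, it is
`(1 - (α^d + β^d) (Nv)^(-s) + (Nv)^(1-2s))⁻¹` for `p ∤ N`, where `α`, `β` are the roots of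
`X² - c(p) X + p`, and `(1 - c(p)^d (Nv)^(-s))⁻¹` for `p ∣ N`.  (The primes `p ∣ 2 Δ` will be
unramified in `F`, so that this is the Hasse-Weil factor.) -/
noncomputable def factor (a b : ℤ) {N : ℕ} (f : CuspForm (Gamma0 N : Subgroup (GL (Fin 2) ℝ)) 2)
    (s : ℂ) (v : HeightOneSpectrum (𝓞 F)) : ℂ :=
  if ((2 * (4 * a ^ 3 + 27 * b ^ 2) : ℤ) : 𝓞 F) ∈ v.asIdeal then
    (1 - pw (coef f (Ideal.absNorm v.asIdeal).minFac)
          (if (Ideal.absNorm v.asIdeal).minFac ∣ N then 0 else ((Ideal.absNorm v.asIdeal).minFac : ℂ))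
          ((Ideal.absNorm v.asIdeal).factorization (Ideal.absNorm v.asIdeal).minFac)
          * ((Ideal.absNorm v.asIdeal : ℕ) : ℂ) ^ (-s)
      + (if (Ideal.absNorm v.asIdeal).minFac ∣ N then (0 : ℂ) else
          ((Ideal.absNorm v.asIdeal : ℕ) : ℂ) ^ (1 - 2 * s)))⁻¹
  else
    (1 - ((av a b v : ℤ) : ℂ) * ((Ideal.absNorm v.asIdeal : ℕ) : ℂ) ^ (-s)
      + ((Ideal.absNorm v.asIdeal : ℕ) : ℂ) ^ (1 - 2 * s))⁻¹

end

/-- `L(E/F, s)` is entire and `L(E/F, 1) ≠ 0`, for the number field `F ⊂ ℂ` and the elliptic curve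
`E : y² = x³ + a x + b` with newform `f`: there is an entire function `G` which for `Re s > 3/2` is the
Euler product of `E` over all finite places of `F`, and `G(1) ≠ 0`. -/
def NonvanishingOver (F : IntermediateField ℚ ℂ) [NumberField F] (a b : ℤ) {N : ℕ}
    (f : CuspForm (Gamma0 N : Subgroup (GL (Fin 2) ℝ)) 2) : Prop :=
  ∃ G : ℂ → ℂ, Differentiable ℂ G ∧
    (∀ s : ℂ, 3 / 2 < s.re → HasProd (fun v : HeightOneSpectrum (𝓞 F) => factor a b f s v) (G s)) ∧
    G 1 ≠ 0

theorem pw_eq (t u : ℂ) : ∀ n : ℕ, pw t u n = W165.CE.pw t u n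
  | 0 => rfl
  | 1 => rfl
  | n + 2 => by rw [pw, W165.CE.pw, pw_eq t u (n + 1), pw_eq t u n]

theorem factor_eq {F : Type} [Field F] [NumberField F] (a b : ℤ) {N : ℕ}
    (f : CuspForm (Gamma0 N : Subgroup (GL (Fin 2) ℝ)) 2) (s : ℂ) (v : HeightOneSpectrum (𝓞 F)) :
    factor a b f s v = W165.CE.fac a b N (Pool.Agent.Y18.BSD.co f) s v := by
  unfold factor W165.CE.fac
  rw [pw_eq]
  rfl

theorem nonvanishing_of {F : IntermediateField ℚ ℂ} [NumberField F] {a b : ℤ} {N : ℕ}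
    {f : CuspForm (Gamma0 N : Subgroup (GL (Fin 2) ℝ)) 2} (h : Pool.Agent.Y18.NF.RZ F a b f) :
    NonvanishingOver F a b f := by
  obtain ⟨G, h1, h2, h3⟩ := h
  refine ⟨G, h1, fun s hs => ?_, h3⟩
  refine (congrArg (fun g => HasProd g (G s)) (funext fun v => ?_)).mp (h2 s hs)
  exact (factor_eq a b f s v).symm


/-- `L` is the `L`-function `L(f, χ_c, s)`: it is entire, and for `Re s > 3/2` it is the Euler product
`∏_p (1 - χ_c(p) c(p) p^(-s) + χ_c(p)² p^(1-2s))⁻¹` (without the last term if `p ∣ N`). -/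
def IsTwistL {N : ℕ} (f : CuspForm (Gamma0 N : Subgroup (GL (Fin 2) ℝ)) 2) (c : Fam)
    (L : ℂ → ℂ) : Prop :=
  Differentiable ℂ L ∧ ∀ s : ℂ, 3 / 2 < s.re →
    HasProd (fun p : Nat.Primes => (1 - value c p * coef f p * ((p : ℕ) : ℂ) ^ (-s) +
      value c p ^ 2 * ((if (p : ℕ) ∣ N then 0 else ((p : ℕ) : ℂ)) *
        (((p : ℕ) : ℂ) ^ (-s)) ^ 2))⁻¹) (L s)

/-- The Gauss sum `∑ χ_c(u)⁻¹ exp(2 π i u / M)`, `0 ≤ u < M`, `M` the conductor of `χ_c`, of the inverse
of the character `χ_c` (the terms with `χ_c(u) = 0` are zero). -/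
noncomputable def gauss (c : Fam) : ℂ :=
  ∑ u ∈ Finset.range (conductor c),
    (value c u)⁻¹ * Complex.exp (2 * Real.pi * Complex.I * u / (conductor c : ℕ))

open Classical in
/-- The number `g(χ_c⁻¹) L(f, χ_c, 1)` (the function `L(f, χ_c, s)` exists and is unique by the theorem
below). -/
noncomputable def central {N : ℕ} (f : CuspForm (Gamma0 N : Subgroup (GL (Fin 2) ℝ)) 2)
    (c : Fam) : ℂ :=
  if h : ∃ L, IsTwistL f c L then gauss c * h.choose 1 else 0

/-- `x` is one of the numbers `2πi ∫_{i∞}^r f(z) dz = lim_{y → 0} ∑ c(n)/n exp(2 π i n (r + i y))`, `r` a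
rational number with denominator prime to the level `N`. -/
def IsPeriod {N : ℕ} (f : CuspForm (Gamma0 N : Subgroup (GL (Fin 2) ℝ)) 2) (x : ℂ) : Prop :=
  ∃ r : ℚ, r.den.Coprime N ∧ Filter.Tendsto (fun y : ℝ => ∑' n : ℕ, coef f n / n *
    Complex.exp (2 * Real.pi * Complex.I * n * ((r : ℂ) + (y : ℂ) * Complex.I))) (𝓝[>] 0) (𝓝 x)

/-- `ζ = exp(2 π i / e)`. -/
noncomputable def zeta (e : ℕ) : ℂ := Complex.exp (2 * Real.pi * Complex.I / (e : ℕ))

/-- The ring `ℤ[ζ]`, generated by the roots of unity of order dividing `e`. -/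
def cyc (e : ℕ) : Subring ℂ := Subring.closure {z | z ^ e = 1}

/-- The character `c^J = ∏ c_j ^ J_j`. -/
noncomputable def mono {r : ℕ} (c : Fin r → Fam) (J : Fin r → ℕ) : Fam := ∏ j, c j ^ J j

section
variable {m : ℕ} {N : Fin m → ℕ}
    (f : (i : Fin m) → CuspForm (Gamma0 (N i) : Subgroup (GL (Fin 2) ℝ)) 2)

/-- `B(c) = ∏_{(i, J) ∈ S} g(c^(-J)) L(f_i, c^J, 1)`. -/
noncomputable def bsd {r : ℕ} (S : Finset (Fin m × (Fin r → ℕ))) (c : Fin r → Fam) : ℂ :=
  ∏ x ∈ S, central (f x.1) (mono c x.2)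

/-- The `ℤ[ζ]`-module `Λ` generated by the products `∏ y_x`, `x ∈ S`, where `y_x` is a period of the form
`f_i` for `x = (i, J)`. -/
def lattice (e : ℕ) {r : ℕ} (S : Finset (Fin m × (Fin r → ℕ))) : Submodule (cyc e) ℂ :=
  Submodule.span (cyc e) {z | ∃ y : Fin m × (Fin r → ℕ) → ℂ,
    (∀ x ∈ S, IsPeriod (f x.1) (y x)) ∧ z = ∏ x ∈ S, y x}

/-- `B(c)` is in `(1 - ζ) ^ μ Λ`. -/
def Divisible (e : ℕ) {r : ℕ} (S : Finset (Fin m × (Fin r → ℕ))) (μ : ℕ) (c : Fin r → Fam) :
    Prop :=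
  ∃ w ∈ lattice f e S, bsd f S c = (1 - zeta e) ^ μ * w

end

theorem supp_mul (c k : Fam) (hc : {q | c q ≠ 1}.Finite) (hk : {q | k q ≠ 1}.Finite) :
    supp (c * k) ⊆ supp c ∪ supp k := by
  classical
  intro q hq
  have hck : {q | (c * k) q ≠ 1}.Finite := by
    refine (hc.union hk).subset ?_
    intro q hq
    by_contra h
    rw [Set.mem_union, not_or] at h
    have h1 : c q = 1 := not_not.1 h.1
    have h2 : k q = 1 := not_not.1 h.2
    exact hq (by rw [Pi.mul_apply, h1, h2]; ext u; simp)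
  unfold supp at hq ⊢
  rw [dif_pos hck, Set.Finite.mem_toFinset] at hq
  rw [dif_pos hc, dif_pos hk, Finset.mem_union, Set.Finite.mem_toFinset, Set.Finite.mem_toFinset]
  by_contra h
  rw [not_or] at h
  have h1 : c q = 1 := not_not.1 h.1
  have h2 : k q = 1 := not_not.1 h.2
  exact hq (by rw [Pi.mul_apply, h1, h2]; ext u; simp)

theorem conductor_pos (c : Fam) (h : ∀ q, c q ≠ 1 → q.Prime) : 0 < conductor c := by
  classical
  unfold conductor
  apply Finset.prod_pos
  intro q hq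
  unfold supp at hq
  split_ifs at hq with hf
  · rw [Set.Finite.mem_toFinset] at hq
    exact (h q hq).pos
  · exact absurd hq (Finset.notMem_empty q)

theorem prime_of_mem_supp {c : Fam} (h : ∀ q, c q ≠ 1 → q.Prime) {q : ℕ} (hq : q ∈ supp c) :
    q.Prime := by
  classical
  unfold supp at hq
  split_ifs at hq with hf
  · rw [Set.Finite.mem_toFinset] at hq
    exact h q hq
  · exact absurd hq (Finset.notMem_empty q)

theorem conductor_mul (c k : Fam) (hc : {q | c q ≠ 1}.Finite) (hk : {q | k q ≠ 1}.Finite)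
    (hc' : ∀ q, c q ≠ 1 → q.Prime) (hk' : ∀ q, k q ≠ 1 → q.Prime) :
    conductor (c * k) ≤ conductor c * conductor k := by
  classical
  have h1 : ∀ q ∈ supp c ∪ supp k, 1 ≤ q := by
    intro q hq
    rcases Finset.mem_union.1 hq with h | h
    · exact (prime_of_mem_supp hc' h).one_le
    · exact (prime_of_mem_supp hk' h).one_le
  calc conductor (c * k) ≤ ∏ q ∈ supp c ∪ supp k, q :=
        Finset.prod_le_prod_of_subset_of_one_le' (supp_mul c k hc hk) (fun q hq _ => h1 q hq)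
    _ ≤ (∏ q ∈ supp c ∪ supp k, q) * ∏ q ∈ supp c ∩ supp k, q := by
        refine Nat.le_mul_of_pos_right _ (Finset.prod_pos fun q hq => ?_)
        exact (prime_of_mem_supp hc' (Finset.mem_inter.1 hq).1).pos
    _ = conductor c * conductor k := Finset.prod_union_inter

theorem card_tuples (H : Subgroup Fam) (r : ℕ) :
    {c : Fin r → Fam | ∀ j, c j ∈ H}.ncard = Nat.card H ^ r := by
  have e : {c : Fin r → Fam // ∀ j, c j ∈ H} ≃ (Fin r → H) := Equiv.subtypePiEquivPi
  have h1 : {c : Fin r → Fam | ∀ j, c j ∈ H}.ncard =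
      Nat.card {c : Fin r → Fam // ∀ j, c j ∈ H} := rfl
  rw [h1, Nat.card_congr e, Nat.card_fun, Nat.card_fin]

section lib
variable {m : ℕ} {a b : Fin m → ℤ} {N : Fin m → ℕ} [∀ i, NeZero (N i)]
    {f : (i : Fin m) → CuspForm (Gamma0 (N i) : Subgroup (GL (Fin 2) ℝ)) 2}

theorem lib_of (hf : ∀ i, IsFormOf (a i) (b i) (N i) (f i)) (i : Fin m) :
    Pool.Agent.Y18.BSD.IsFormOf (a i) (b i) (N i) (f i) :=
  ⟨(hf i).one, (hf i).real, (hf i).mul, (hf i).pow, (hf i).good, (hf i).bad,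
    (hf i).fricke, (hf i).points⟩

theorem hok {l n : ℕ} {H : Subgroup Fam} (hH : IsCharGroup a b l n H) :
    Pool.Agent.Y18.LP.HOk m a b l n H := ⟨hH.pow, hH.finite, hH.admissible⟩

theorem exists_unique_L (hf : ∀ i, IsFormOf (a i) (b i) (N i) (f i)) {l n : ℕ}
    {H : Subgroup Fam} (hH : IsCharGroup a b l n H) (c : Fam) (hc : c ∈ H) (i : Fin m) :
    ∃! L, IsTwistL (f i) c L := by
  obtain ⟨w, hnf, hfr⟩ := (lib_of hf i).newf
  have hp : ∀ q ∈ Pool.Agent.Y18.LP.sp c, q.Prime ∧ ¬ q ∣ N i := by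
    intro q hq
    have h5 := (Pool.Agent.Y18.LP.mem_sp (hH.finite _ hc) q).1 hq
    obtain ⟨h6, h7⟩ := hH.admissible _ hc q h5
    exact ⟨h6, ((hf i).points q (h7 i).1).1⟩
  obtain ⟨G, hG1, hG2, -⟩ := Pool.Agent.Y18.LP.tw_complete hnf hfr (lib_of hf i).cf (c := c)
    (hH.finite _ hc) hp
  refine ⟨G, ⟨hG1, hG2⟩, fun L hL => ?_⟩
  have hA : AnalyticOnNhd ℂ L Set.univ := fun s _ => hL.1.analyticAt s
  have hB : AnalyticOnNhd ℂ G Set.univ := fun s _ => hG1.analyticAt s
  have hev : L =ᶠ[𝓝 (2 : ℂ)] G := by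
    have hopen : IsOpen {s : ℂ | (3 : ℝ) / 2 < s.re} :=
      isOpen_lt continuous_const Complex.continuous_re
    filter_upwards [hopen.mem_nhds (show (2 : ℂ) ∈ {s : ℂ | (3 : ℝ) / 2 < s.re} by
      show (3 : ℝ) / 2 < (2 : ℂ).re
      norm_num)] with s hs
    exact (hL.2 s hs).unique (hG2 s hs)
  exact hA.eq_of_eventuallyEq hB hev

theorem central_eq (hf : ∀ i, IsFormOf (a i) (b i) (N i) (f i)) {l n : ℕ}
    {H : Subgroup Fam} (hH : IsCharGroup a b l n H) (c : Fam) (hc : c ∈ H) (i : Fin m) :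
    central (f i) c = Pool.Agent.Y18.LP.bt (Pool.Agent.Y18.BSD.bv (f i)) c⁻¹ := by
  obtain ⟨w, hnf, hfr⟩ := (lib_of hf i).newf
  have hp : ∀ q ∈ Pool.Agent.Y18.LP.sp c, q.Prime ∧ ¬ q ∣ N i := by
    intro q hq
    have h5 := (Pool.Agent.Y18.LP.mem_sp (hH.finite _ hc) q).1 hq
    obtain ⟨h6, h7⟩ := hH.admissible _ hc q h5
    exact ⟨h6, ((hf i).points q (h7 i).1).1⟩
  have hex : ∃ L, IsTwistL (f i) c L := (exists_unique_L hf hH c hc i).exists
  unfold central
  rw [dif_pos hex]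
  exact (Pool.Agent.X252.LX.val_eq hnf hfr (lib_of hf i).cf (hH.finite _ hc) hp hex.choose
    hex.choose_spec.1 hex.choose_spec.2).symm

theorem bsd_eq (hf : ∀ i, IsFormOf (a i) (b i) (N i) (f i)) {l n r : ℕ}
    {H : Subgroup Fam} (hH : IsCharGroup a b l n H) (S : Finset (Fin m × (Fin r → ℕ)))
    (c : Fin r → Fam) (hc : ∀ j, c j ∈ H) : bsd f S c = Pool.Agent.X252.LX.Bf m N f S c := by
  unfold bsd Pool.Agent.X252.LX.Bf Pool.Agent.X252.LX.Bs
  refine Finset.prod_congr rfl fun x _ => ?_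
  exact central_eq hf hH (mono c x.2) (Pool.Agent.X252.AG.pp_mem (G := Fam) H c hc x.2) x.1

theorem lattice_eq (hf : ∀ i, IsFormOf (a i) (b i) (N i) (f i)) (e : ℕ) {r : ℕ}
    (S : Finset (Fin m × (Fin r → ℕ))) :
    lattice f e S = Pool.Agent.X252.LX.Ws m N f e S := by
  have h1 : ∀ i, Pool.Agent.X252.LX.Wp m N f e i =
      Submodule.span (cyc e) {x | IsPeriod (f i) x} := by
    intro i
    obtain ⟨w, hnf, hfr⟩ := (lib_of hf i).newf
    exact Pool.Agent.X252.LX.span_period hfr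
  unfold Pool.Agent.X252.LX.Ws
  have h2 : ∏ x ∈ S, Pool.Agent.X252.LX.Wp m N f e x.1 =
      ∏ x ∈ S, Submodule.span (cyc e) {y | IsPeriod (f x.1) y} :=
    Finset.prod_congr rfl fun x _ => h1 x.1
  rw [h2, Submodule.prod_span]
  unfold lattice
  congr 1
  ext z
  rw [Set.mem_finsetProd]
  constructor
  · rintro ⟨y, hy, rfl⟩
    exact ⟨y, fun {x} hx => hy x hx, rfl⟩
  · rintro ⟨y, hy, rfl⟩
    exact ⟨y, fun x hx => hy hx, rfl⟩

theorem divisible_iff (hf : ∀ i, IsFormOf (a i) (b i) (N i) (f i)) {l n r : ℕ}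
    {H : Subgroup Fam} (hH : IsCharGroup a b l n H) (S : Finset (Fin m × (Fin r → ℕ))) (μ : ℕ)
    (c : Fin r → Fam) (hc : ∀ j, c j ∈ H) : Divisible f (l ^ n) S μ c ↔
      ∃ w ∈ Pool.Agent.X252.LX.Ws m N f (l ^ n) S,
        Pool.Agent.X252.LX.Bf m N f S c = (1 - Pool.Agent.X252.LW.zt (l ^ n)) ^ μ * w := by
  unfold Divisible
  rw [bsd_eq hf hH S c hc, lattice_eq hf]
  exact Iff.rfl

end lib

/-- **Theorem.** Let `E_i : y² = x³ + a_i x + b_i`, `i = 1, …, m`, be elliptic curves over `ℚ` with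
newforms `f_i`, `l` a prime, `n > 0`, and `S` a finite set of pairs `(i, J)`, `J ∈ ℕ^r`. A group of
characters is here a group of Dirichlet characters of order dividing `l ^ n` and of squarefree conductors
composed of primes `q ∤ 2 Δ_i` with `l ∤ #E_i(ℤ/q)`. For a tuple `c` of characters let
`B(c) = ∏_{(i, J) ∈ S} g(c^(-J)) L(f_i, c^J, 1)`, and let `ζ`, `Λ` be as above.

(1) The functions `L(f_i, χ, s)` exist and are unique.

(2) If `B(c0) ≠ 0`, then `B(c0) ∉ (1 - ζ)^(V+1) Λ` for some `V`.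

(3) Let `c0` be a tuple in `H ^ r`, `H` a group of characters, with `B(c0) ∉ (1 - ζ)^(V+1) Λ`. There is
a `μ ≤ V` with `B(c) ∈ (1 - ζ)^μ Λ` for all `c ∈ H ^ r` such that, with `μ = A (l - 1) + R`,
`0 ≤ R < l - 1` (`R = 0` if `l = 2`), and `δ = (l - R) / l ^ (A + 1)`:

* there is a nonempty set `K` in `H ^ r` of at most `l ^ (n μ)` elements such that for every `c ∈ H ^ r`
  at least `δ |K|` of the `k ∈ K` satisfy `B(c k) ∉ (1 - ζ)^(μ+1) Λ`;
* if `H` is finite, then `B(c) ∉ (1 - ζ)^(μ+1) Λ` for at least `δ |H| ^ r` tuples `c ∈ H ^ r`;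
* there is a `B0` such that for all `X` the number of the tuples `c ∈ H ^ r` with conductors at most
  `B0 X` and `B(c) ∉ (1 - ζ)^(μ+1) Λ` is at least `δ` times the number of all tuples in `H ^ r` with
  conductors at most `X`.

(4) If `S` contains all `(i, J)` with `0 ≤ J_j < l ^ n`, for a given `i`, and `B(c) ≠ 0`, then
`L(E_i/F, s)` is entire and `L(E_i/F, 1) ≠ 0` for all number fields `F ⊂ ℂ` contained in the field
generated by the Gaussian periods of the characters in the group generated by the `c_j`. -/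
theorem result :
    ∀ (m : ℕ) (a b : Fin m → ℤ), (∀ i, 4 * a i ^ 3 + 27 * b i ^ 2 ≠ 0) →
      ∀ N : Fin m → ℕ, (∀ i, N i ≠ 0) →
      ∀ f : (i : Fin m) → CuspForm (Gamma0 (N i) : Subgroup (GL (Fin 2) ℝ)) 2,
      (∀ i, IsFormOf (a i) (b i) (N i) (f i)) →
      ∀ l n r : ℕ, l.Prime → 0 < n →
      ∀ S : Finset (Fin m × (Fin r → ℕ)), ∀ H : Subgroup Fam, IsCharGroup a b l n H →
      (∀ c ∈ H, ∀ i, ∃! L, IsTwistL (f i) c L) ∧
      (∀ c : Fin r → Fam, (∀ j, c j ∈ H) → bsd f S c ≠ 0 →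
        ∃ V : ℕ, ¬ Divisible f (l ^ n) S (V + 1) c) ∧
      (∀ c0 : Fin r → Fam, (∀ j, c0 j ∈ H) → ∀ V : ℕ, ¬ Divisible f (l ^ n) S (V + 1) c0 →
        ∃ μ ≤ V, (∀ c : Fin r → Fam, (∀ j, c j ∈ H) → Divisible f (l ^ n) S μ c) ∧
          (∃ K : Finset (Fin r → Fam), K.Nonempty ∧ K.card ≤ (l ^ n) ^ μ ∧
            (∀ k ∈ K, ∀ j, k j ∈ H) ∧ ∀ c : Fin r → Fam, (∀ j, c j ∈ H) →
              (l - μ % (l - 1)) * K.card ≤ l ^ (μ / (l - 1) + 1) *
                {k | k ∈ K ∧ ¬ Divisible f (l ^ n) S (μ + 1) (c * k)}.ncard) ∧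
          ((H : Set Fam).Finite → (l - μ % (l - 1)) * Nat.card H ^ r ≤
            l ^ (μ / (l - 1) + 1) *
              {c : Fin r → Fam | (∀ j, c j ∈ H) ∧ ¬ Divisible f (l ^ n) S (μ + 1) c}.ncard) ∧
          ∃ B0 : ℕ, ∀ X : ℕ,
            (l - μ % (l - 1) : ℕ) * {c : Fin r → Fam | ∀ j, c j ∈ H ∧ conductor (c j) ≤ X}.encard ≤
              (l ^ (μ / (l - 1) + 1) : ℕ) * {c : Fin r → Fam |
                (∀ j, c j ∈ H ∧ conductor (c j) ≤ B0 * X) ∧
                  ¬ Divisible f (l ^ n) S (μ + 1) c}.encard) ∧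
      (∀ c : Fin r → Fam, (∀ j, c j ∈ H) → ∀ i,
        (∀ J : Fin r → ℕ, (∀ j, J j < l ^ n) → (i, J) ∈ S) → bsd f S c ≠ 0 →
        ∀ (F : IntermediateField ℚ ℂ) [NumberField F], F ≤ IntermediateField.adjoin ℚ
          {x : ℂ | ∃ χ ∈ Subgroup.closure (Set.range c), x = period χ} →
        NonvanishingOver F (a i) (b i) (f i)) := by
  classical
  intro m a b hΔ N hN f hf l n r hl hn S H hH
  have : ∀ i, NeZero (N i) := fun i => ⟨hN i⟩
  have hl2 := hl.two_le
  refine ⟨fun c hc i => exists_unique_L hf hH c hc i, ?_, ?_, ?_⟩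
  · intro c hc h0
    rw [bsd_eq hf hH S c hc] at h0
    obtain ⟨V, hV⟩ := Pool.Agent.X252.LX.exists_V m a b N f (lib_of hf) hl hn S (hok hH) c hc h0
    refine ⟨V, fun h => hV ?_⟩
    rw [divisible_iff hf hH S _ c hc] at h
    exact (Pool.Agent.X252.LW.mem_Pc_smul _ _ _ _).2 h
  · intro c0 hc0 V hV
    obtain ⟨μ, hμ, hdiv, K, hK0, hK1, hK2, hK3⟩ := Pool.Agent.X252.LX.fam_least m a b N f
      (lib_of hf) hl hn S (hok hH) c0 hc0 (V := V) (fun h => hV (by
        rw [divisible_iff hf hH S _ c0 hc0]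
        exact (Pool.Agent.X252.LW.mem_Pc_smul _ _ _ _).1 h))
    have hab : μ ≤ μ / (l - 1) * (l - 1) + μ % (l - 1) := by
      have := Nat.div_add_mod μ (l - 1)
      rw [mul_comm] at this
      exact this.ge
    have hb : μ % (l - 1) ≤ l - 1 := (Nat.mod_lt _ (by omega)).le
    have hK : ∀ c : Fin r → Fam, (∀ j, c j ∈ H) →
        (l - μ % (l - 1)) * K.card ≤ l ^ (μ / (l - 1) + 1) *
          {k | k ∈ K ∧ ¬ Divisible f (l ^ n) S (μ + 1) (c * k)}.ncard := by
      intro c hc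
      refine (hK3 c hc _ _ hab hb).trans (Nat.mul_le_mul_left _ (le_of_eq ?_))
      congr 1
      ext k
      refine and_congr_right fun hk => not_congr ?_
      exact (divisible_iff hf hH S (μ + 1) (c * k) fun j => H.mul_mem (hc j) (hK2 k hk j)).symm
    refine ⟨μ, hμ, fun c hc => (divisible_iff hf hH S μ c hc).2 (hdiv c hc), ⟨K, hK0, hK1, hK2, hK⟩,
      fun hfin => ?_, ?_⟩
    · have h1 := Pool.Agent.X252.LW.encard_translate {c : Fin r → Fam | ∀ j, c j ∈ H}
        {c : Fin r → Fam | (∀ j, c j ∈ H) ∧ ¬ Divisible f (l ^ n) S (μ + 1) c} K hK0 _ _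
        (fun c hc => (hK c hc).trans (Nat.mul_le_mul_left _ (le_of_eq (by
          congr 1
          ext k
          refine and_congr_right fun hk => ?_
          exact ⟨fun h => ⟨fun j => H.mul_mem (hc j) (hK2 k hk j), h⟩, fun h => h.2⟩))))
      have hA : {c : Fin r → Fam | ∀ j, c j ∈ H}.Finite := by
        have : Finite H := hfin
        have e : {c : Fin r → Fam // ∀ j, c j ∈ H} ≃ (Fin r → H) := Equiv.subtypePiEquivPi
        have h3 : Finite {c : Fin r → Fam // ∀ j, c j ∈ H} := Finite.of_equiv _ e.symm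
        exact h3
      have hB : {c : Fin r → Fam | (∀ j, c j ∈ H) ∧
          ¬ Divisible f (l ^ n) S (μ + 1) c}.Finite := hA.subset fun c hc => hc.1
      rw [← hA.cast_ncard_eq, ← hB.cast_ncard_eq, card_tuples] at h1
      exact_mod_cast h1
    · refine ⟨∏ k ∈ K, ∏ j, conductor (k j), fun X => ?_⟩
      have hpos : ∀ k ∈ K, ∀ j, 0 < conductor (k j) := fun k hk j =>
        conductor_pos _ fun q hq => (hH.admissible _ (hK2 k hk j) q hq).1
      refine Pool.Agent.X252.LW.encard_translate _ _ K hK0 _ _ (fun c hc => ?_)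
      refine (hK c fun j => (hc j).1).trans (Nat.mul_le_mul_left _ (le_of_eq ?_))
      congr 1
      ext k
      refine and_congr_right fun hk => ?_
      refine ⟨fun h => ⟨fun j => ⟨H.mul_mem (hc j).1 (hK2 k hk j), ?_⟩, h⟩, fun h => h.2⟩
      have h3 := conductor_mul (c j) (k j) (hH.finite _ (hc j).1) (hH.finite _ (hK2 k hk j))
        (fun q hq => (hH.admissible _ (hc j).1 q hq).1)
        (fun q hq => (hH.admissible _ (hK2 k hk j) q hq).1)
      have h4 : conductor (k j) ≤ ∏ k ∈ K, ∏ j, conductor (k j) := by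
        have h5 : conductor (k j) ∣ ∏ j, conductor (k j) :=
          Finset.dvd_prod_of_mem (fun j => conductor (k j)) (Finset.mem_univ j)
        have h6 : (∏ j, conductor (k j)) ∣ ∏ k ∈ K, ∏ j, conductor (k j) :=
          Finset.dvd_prod_of_mem (fun k : Fin r → Fam => ∏ j, conductor (k j)) hk
        exact Nat.le_of_dvd (Finset.prod_pos fun k hk => Finset.prod_pos fun j _ =>
          hpos k hk j) (h5.trans h6)
      calc conductor ((c * k) j) ≤ conductor (c j) * conductor (k j) := h3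
        _ ≤ X * ∏ k ∈ K, ∏ j, conductor (k j) := Nat.mul_le_mul (hc j).2 h4
        _ = _ := mul_comm _ _
  · intro c hc i hS h0 F _ hF
    refine nonvanishing_of (Pool.Agent.X252.LX.fields_of m a b hΔ N f (lib_of hf) hl (hok hH) c hc i
      (fun J hJ => ?_) F hF)
    have h1 : central (f i) (mono c J) ≠ 0 :=
      Finset.prod_ne_zero_iff.1 h0 (i, J) (hS J hJ)
    rw [central_eq hf hH (mono c J) (Pool.Agent.X252.AG.pp_mem (G := Fam) H c hc J) i] at h1
    exact h1

end Pool.Agent.Results.MP_e996df_nt.LeastValuation
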