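import Mathlib
import Pool.Agent.Y698.SG.Fj
import Pool.Agent.Y698.SG.Ug
import Pool.Agent.Y698.SG.Uj
import Pool.Agent.Y698.SG.Dwc
import Pool.Agent.Y698.SG.Ebb
import Pool.Agent.X99.PA.Tw
import Pool.Agent.X99.C49.Fin

/-!
# The formula modulo two for the prime twists of an arbitrary twist of `X_0(49)` over many fields

`R` is any nonempty finite set of primes `r ≡ 1 mod 4` which are inert in `ℚ(√-7)`, `n_r ≥ 1`, and `K_r`
is the subfield of degree `2 ^ n_r` of `ℚ(ζ_r)`, for `r ∈ R`. `E_D` is the quadratic twist by `D` of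
`X_0(49) : y² + x y = x³ - x² - 2 x - 1`, and

`z(D, K) = √|Disc K| #E_D(K)_tors² L(E_D/K, 1) / (Ω ∏ c_v)`,

which is zero or the order of `Ш(E_D/K)` according to the conjecture. `D` is ANY member of the class of
the odd squarefree positive integers prime to `R` whose prime factors are `1` modulo `4`, split
completely in all the fields `K_r` if they split in `ℚ(√-7)`, and have Frobenius elements of order one
or two in all the fields `K_r` otherwise; nothing is assumed about the rank, the Tate-Shafarevich group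
or the L-function of `E_D` over `K_r`. Let `S(D)` be the set of the prime factors of `D` that split in
`ℚ(√-7)`, let `A(D)` be the symmetric matrix over `𝔽₂` indexed by `S(D)` with the additive residue
symbols off the diagonal and zeros on the diagonal, and let

`δ(D) = #{diagonal matrices x : det (A(D) + x) ≠ 0} / 2^{#S(D)}`.

Let `q` run through the primes `1 mod 4` not in `R` and prime to `D` which are inert in `ℚ(√-7)` and
have a Frobenius element of order one or two in all the fields `K_r`. Among these primes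

* the set of those for which over ALL the fields `K_r` both sides of the formula of Birch and
  Swinnerton-Dyer for `E_{D q}` are odd (`L(E_{D q}/K_r, 1) ≠ 0`, `E_{D q}(K_r)` finite,
  `Ш(E_{D q}/K_r)[2^∞] = 0`, and `z(D q, K_r)` is a unit at all the primes above two) has relative
  natural density exactly `δ(D)`, the same number for all choices of the fields, and
* for all the others both sides are even over ALL the fields `K_r` (`z(D q, K_r)` is in the maximal ideal
  of all the valuations above two, and `E_{D q}(K_r)` is infinite or `Ш(E_{D q}/K_r)` has an element of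
  order two); their density is `1 - δ(D)`.

The number `2^{#S(D)} δ(D)` is an odd integer; so `δ(D) ≥ 2^{-#S(D)} > 0` for all `D`.

Proof. The values and the descent over `K` are those of the teams of `Pool/Agent/Y698`. The matrix of the
criterion for `D q` is the matrix for `D` plus the diagonal matrix of the symbols `[q / p]`, `p ∈ S(D)`
(`Pool/Agent/X99/PA`); the symbols are equidistributed over the classes modulo `28 D ∏ r`, the primes by
the prime number theorem for arithmetic progressions, and the sum of `det (A + x)` over all the diagonal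
matrices `x` is `1` modulo two.
-/

set_option autoImplicit false

open Finset NumberField NumberField.InfinitePlace IsDedekindDomain WeierstrassCurve MeasureTheory

namespace Pool.Agent.Results.MP_e996df_nt.PrimeTwistsCyclicFields

open Pool.Agent.TH841.NF.D (Sha)
open Pool.Agent.TH841.SH.D (Pt)

/-- For `D ≡ 1 mod 4` the quadratic twist by `D` of the elliptic curve
`X_0(49) : y² + x y = x³ - x² - 2 x - 1`:
the curve `y² + x y = x³ - (3 D + 1) / 4 x² - 2 D² x - D³`. -/
def twist (D : ℕ) : WeierstrassCurve ℤ := ⟨1, -((3 * D + 1) / 4), 0, -2 * D ^ 2, -D ^ 3⟩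

/-- The curve given by the equation of `W` over the ring `R`. -/
abbrev base (W : WeierstrassCurve ℤ) (R : Type) [CommRing R] : WeierstrassCurve R :=
  W.map (Int.castRingHom R)

section

variable {K : Type} [Field K] [NumberField K]

/-- The equation is minimal at the finite place `v` of `K`: no change of variables over `K` that
keeps the coefficients integral at `v` decreases the order of the discriminant. -/
def MinimalAt (W : WeierstrassCurve K) (v : HeightOneSpectrum (𝓞 K)) : Prop :=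
  ∀ C : VariableChange K, v.valuation K (C • W).a₁ ≤ 1 → v.valuation K (C • W).a₂ ≤ 1 →
    v.valuation K (C • W).a₃ ≤ 1 → v.valuation K (C • W).a₄ ≤ 1 → v.valuation K (C • W).a₆ ≤ 1 →
    v.valuation K (C • W).Δ ≤ v.valuation K W.Δ

/-- `W⁰(K_v)`, the group of the points of `W` over the completion `K_v` with nonsingular reduction:
the point at infinity and the points `(x, y)` where `x` is not integral, or one of the partial
derivatives of `y² + a₁ x y + a₃ y - x³ - a₂ x² - a₄ x - a₆` is a unit at `(x, y)`.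
Here `Pt W K_v` is the group of the points of `W` over `K_v`. -/
noncomputable def nonsing (W : WeierstrassCurve K) (v : HeightOneSpectrum (𝓞 K)) :
    AddSubgroup (Pt W (v.adicCompletion K)) :=
  AddSubgroup.closure {P | ∀ x y h, P = Affine.Point.some x y h →
    1 < Valued.v x ∨
    Valued.v ((W.baseChange (v.adicCompletion K)).a₁ * y -
      (3 * x ^ 2 + 2 * (W.baseChange (v.adicCompletion K)).a₂ * x +
        (W.baseChange (v.adicCompletion K)).a₄)) = 1 ∨
    Valued.v (2 * y + (W.baseChange (v.adicCompletion K)).a₁ * x +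
      (W.baseChange (v.adicCompletion K)).a₃) = 1}

/-- The Tamagawa number `c_v = [W(K_v) : W⁰(K_v)]` of a minimal equation. -/
noncomputable def c (W : WeierstrassCurve K) (v : HeightOneSpectrum (𝓞 K)) : ℕ :=
  (nonsing W v).index

/-- The product of the Tamagawa numbers. -/
noncomputable def Tam (W : WeierstrassCurve K) : ℕ := ∏ᶠ v : HeightOneSpectrum (𝓞 K), c W v

/-- The 2-primary part of the Tate-Shafarevich group over `K`. -/
def Sha2 (W : WeierstrassCurve K) : Set (Sha W) := {x | ∃ n : ℕ, 2 ^ n • x = 0}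

end

/-- `4 x³ + b₂ x² + 2 b₄ x + b₆ = (2 y + a₁ x + a₃)²`. -/
def cubic (W : WeierstrassCurve ℤ) {R : Type} [CommRing R] (x : R) : R :=
  4 * x ^ 3 + W.b₂ * x ^ 2 + 2 * W.b₄ * x + W.b₆

/-- `∫_{W(ℝ)} |ω|` with `ω = dx / (2 y + a₁ x + a₃)`, as an integral over `x`: two real points lie
over each `x` with `cubic x > 0`. -/
noncomputable def realPeriod (W : WeierstrassCurve ℤ) : ℝ :=
  2 * ∫ x in {x : ℝ | 0 < cubic W x}, 1 / √(cubic W x)

/-- `2 ∫_{W(ℂ)} |ω ∧ ω̄|`, where `|ω ∧ ω̄| = du dv` in a local parameter `z = u + i v` with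
`dz = ω`, as an integral over `x`: two points lie over a general `x`, and `|ω ∧ ω̄|` is the area
element of the plane of `x` divided by `|cubic x|`. -/
noncomputable def complexPeriod (W : WeierstrassCurve ℤ) : ℝ := 2 * (2 * ∫ x : ℂ, 1 / ‖cubic W x‖)

/-- `Ω_{W/K}`. -/
noncomputable def Omega (K : Type) [Field K] [NumberField K] (W : WeierstrassCurve ℤ) : ℝ :=
  realPeriod W ^ nrRealPlaces K * complexPeriod W ^ nrComplexPlaces K

open Classical in
/-- The order of the torsion subgroup of `W(K)`. -/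
noncomputable def torsOrder (K : Type) [Field K] [NumberField K] (W : WeierstrassCurve ℤ) : ℕ :=
  Nat.card (AddCommGroup.torsion (base W K).toAffine.Point)

/-- The order of the Tate-Shafarevich group predicted by the formula, for a curve with an equation that
is minimal at all finite places and the value `l` of its L-function at `s = 1`:
`√|Disc K| #W(K)_tors² l / (Ω_{W/K} ∏ c_v)`. -/
noncomputable def anOrder (K : Type) [Field K] [NumberField K] (W : WeierstrassCurve ℤ) (l : ℂ) : ℂ :=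
  l * (√|(discr K : ℝ)| : ℝ) * (torsOrder K W : ℂ) ^ 2 / ((Omega K W : ℝ) * (Tam (base W K) : ℂ))

/-- `D` is squarefree, its prime factors are different from `r` and `1` modulo `4`; those which split
in `ℚ(√-7)` split completely in the field `K` of degree `2 ^ n` (they are `2 ^ n`-th powers modulo `r`),
and the others have a Frobenius element in `Gal(K/ℚ)` of order one or two (their squares are
`2 ^ n`-th powers modulo `r`) -/
def Class (r n D : ℕ) : Prop := Squarefree D ∧ ∀ p : ℕ, p.Prime → p ∣ D → p % 4 = 1 ∧ p ≠ r ∧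
  (IsSquare (-7 : ZMod p) → ∃ y : ZMod r, y ^ 2 ^ n = (p : ZMod r)) ∧
  (¬ IsSquare (-7 : ZMod p) → ∃ y : ZMod r, y ^ 2 ^ n = (p : ZMod r) ^ 2)

/-- the class for several fields -/
def ClassAll (R : Finset ℕ) (n : ℕ → ℕ) (D : ℕ) : Prop :=
  (Squarefree D ∧ ∀ p : ℕ, p.Prime → p ∣ D → p % 4 = 1) ∧ ∀ r ∈ R, Class r (n r) D

/-- `E_D(K)` is finite and `Ш(E_D/K)` has no element of order two -/
def FiniteShaTwo (K : Type) [Field K] [NumberField K] (D : ℕ) : Prop :=
  Finite (base (twist D) K).toAffine.Point ∧ ∀ x : Sha (base (twist D) K), x + x = 0 → x = 0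

/-- `Λ` is the analytic continuation to the complex plane of the L-function of `E_D` over `K` -/
def IsLFunction (K : Type) [Field K] [NumberField K] (D : ℕ) (Λ : ℂ → ℂ) : Prop :=
  Differentiable ℂ Λ ∧ ∀ s : ℂ, 2 < s.re → Λ s = (base (twist D) K).LSeries s

/-- Both sides of the formula are odd: `E_D(K)` is finite, `Ш(E_D/K)[2^∞] = 0`, `L(E_D/K, 1) ≠ 0`, and
`z(D, K)` is a unit for all the valuations of `ℂ` above two. -/
def BothOdd (K : Type) [Field K] [NumberField K] (D : ℕ) : Prop :=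
  Finite (base (twist D) K).toAffine.Point ∧ Sha2 (base (twist D) K) = {0} ∧
    ∃ Λ : ℂ → ℂ, IsLFunction K D Λ ∧ Λ 1 ≠ 0 ∧
      ∀ (Γ : Type) [LinearOrderedCommGroupWithZero Γ] (v : Valuation ℂ Γ), v 2 < 1 →
        v (anOrder K (twist D) (Λ 1)) = 1

/-- Both sides of the formula are even: `E_D(K)` is infinite or `Ш(E_D/K)` has an element of order two,
and `z(D, K)` is integral and not a unit for all the valuations of `ℂ` above two. -/
def BothEven (K : Type) [Field K] [NumberField K] (D : ℕ) : Prop :=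
  (Infinite (base (twist D) K).toAffine.Point ∨ ∃ x : Sha (base (twist D) K), x ≠ 0 ∧ x + x = 0) ∧
    ∃ Λ : ℂ → ℂ, IsLFunction K D Λ ∧
      ∀ (Γ : Type) [LinearOrderedCommGroupWithZero Γ] (v : Valuation ℂ Γ), v 2 < 1 →
        v (anOrder K (twist D) (Λ 1)) < 1

/-- The new primes `q`: `q ≡ 1 mod 4` is inert in `ℚ(√-7)` and not in `R`, and has a Frobenius element of
order one or two in all the fields `K_r` -/
def NewPrime (R : Finset ℕ) (n : ℕ → ℕ) (q : ℕ) : Prop :=
  q.Prime ∧ q % 4 = 1 ∧ ¬ IsSquare (-7 : ZMod q) ∧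
    ∀ r ∈ R, q ≠ r ∧ ∃ y : ZMod r, y ^ 2 ^ n r = (q : ZMod r) ^ 2

open Classical in
/-- the set of the prime factors of `D` that split in `ℚ(√-7)` -/
noncomputable def S (D : ℕ) : Finset ℕ := D.primeFactors.filter fun p => IsSquare (-7 : ZMod p)

open Classical in
/-- the symmetric matrix `A(D) + x`: off the diagonal the additive quadratic residue symbols `[p' / p]`
of the elements of `S(D)`, on the diagonal `x` -/
noncomputable def matrix (D : ℕ) (x : S D → ZMod 2) : Matrix (S D) (S D) (ZMod 2) :=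
  Matrix.of fun i j => if i = j then x i else if IsSquare (((j : ℕ)) : ZMod (i : ℕ)) then 0 else 1

open Classical in
/-- the number of the diagonals `x` which make the matrix nonsingular -/
noncomputable def k (D : ℕ) : ℕ :=
  ((univ : Finset (S D → ZMod 2)).filter fun x => (matrix D x).det ≠ 0).card

/-- the density -/
noncomputable def δ (D : ℕ) : ℝ := (k D : ℝ) / 2 ^ (S D).card

open Classical in
/-- the number of the new primes `q ≤ X` prime to `D` with the property `Q` -/
noncomputable def count (R : Finset ℕ) (n : ℕ → ℕ) (D : ℕ) (Q : ℕ → Prop) (X : ℕ) : ℕ :=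
  ((Icc 1 X).filter fun q => (NewPrime R n q ∧ ¬ q ∣ D) ∧ Q q).card

section proof

open Pool.Agent.Y698

lemma base_eq {D j : ℕ} (hj : D = 1 + 4 * j) (K : Type) [Field K] : base (twist D) K = AX K j :=
  twZ_map hj K

lemma cubic_eq {D j : ℕ} (hj : D = 1 + 4 * j) {R : Type} [CommRing R] (x : R) :
    cubic (twist D) x = psD (1 + 4 * j) x := by
  have h1 : (3 * (D : ℤ) + 1) / 4 = 1 + 3 * j := by
    rw [hj]
    push_cast
    omega
  unfold cubic twist WeierstrassCurve.b₂ WeierstrassCurve.b₄ WeierstrassCurve.b₆ psD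
  simp only
  rw [h1, hj]
  push_cast
  ring

lemma real_eq {D j : ℕ} (hj : D = 1 + 4 * j) : realPeriod (twist D) =
    ∫ x in {x : ℝ | 0 < psD (1 + 4 * j) x}, 2 / Real.sqrt (psD (1 + 4 * j) x) := by
  unfold realPeriod
  simp only [cubic_eq hj]
  rw [← integral_const_mul]
  congr 1
  funext x
  ring

lemma cplx_eq {D j : ℕ} (hj : D = 1 + 4 * j) : complexPeriod (twist D) =
    ∫ x : ℂ, 4 / ‖psD (1 + 4 * j) x‖ := by
  unfold complexPeriod
  simp only [cubic_eq hj]
  rw [← mul_assoc, ← integral_const_mul]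
  congr 1
  funext x
  ring


open Pool.Agent.X99.C49 in
/-- one field -/
lemma one_field {r n : ℕ} (hr : r.Prime) (h4 : r % 4 = 1) (h7 : ¬ IsSquare (-7 : ZMod r))
    (hn : 1 ≤ n) (K : IntermediateField ℚ (CyclotomicField r ℚ))
    (hK : Module.finrank ℚ K = 2 ^ n) {D : ℕ} (hD : KP.FamK r n D) :
    (BothOdd K D ∧ (mat (IP D) (SPr D)).det ≠ 0) ∨ (BothEven K D ∧ ¬ (mat (IP D) (SPr D)).det ≠ 0) := by
  classical
  have : Fact r.Prime := ⟨hr⟩
  have hM : IsCyclotomicExtension {r} ℚ (CyclotomicField r ℚ) := Pool.Agent.Y698.cyc_inst r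
  have hN : Normal ℚ K := (Pool.Agent.Y698.isGalK r K (M := CyclotomicField r ℚ)).to_normal
  have hir : Pool.Agent.Y698.Inq r := ⟨hr, h4, h7⟩
  have hfam : Fam D := hD.1
  have hQ' : ∀ q ∈ IP D, Pool.Agent.Y698.Inq q ∧ q ≠ r := fun q hq =>
    ⟨inq hfam q hq, (hD.2 q (Nat.prime_of_mem_primeFactors (mem_IP.1 hq).1)
      (Nat.dvd_of_mem_primeFactors (mem_IP.1 hq).1)).1⟩
  have hP' : ∀ p ∈ SPr D, Pool.Agent.Y698.SG.Spl p := fun p hp => spl hfam p hp
  obtain ⟨j, hj⟩ : ∃ j, D = 1 + 4 * j := ⟨D / 4, by have := fam4 hfam; omega⟩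
  have hprod : ∏ q ∈ IP D ∪ SPr D, q = 1 + 4 * j := by rw [← hj]; exact Mn_eq hfam
  -- the criterion
  have heq := Pool.Agent.Y698.SG.equiv_all (CyclotomicField r ℚ) K hK hn hir hQ' hP' hprod
  have hcl1 : ∀ q ∈ IP D, ∃ y : ZMod r, y ^ 2 ^ n = (q : ZMod r) ^ 2 := fun q hq => by
    obtain ⟨h1, h2⟩ := mem_IP.1 hq
    exact (hD.2 q (Nat.prime_of_mem_primeFactors h1) (Nat.dvd_of_mem_primeFactors h1)).2.2 h2
  have hcl2 : ∀ p ∈ SPr D, ∃ y : ZMod r, y ^ 2 ^ n = (p : ZMod r) := fun p hp => by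
    obtain ⟨h1, h2⟩ := mem_SPr.1 hp
    exact (hD.2 p (Nat.prime_of_mem_primeFactors h1) (Nat.dvd_of_mem_primeFactors h1)).2.1 h2
  have hCond : FiniteShaTwo K D ↔ ((∀ q ∈ IP D, ∃ y : ZMod r, y ^ 2 ^ n = (q : ZMod r) ^ 2) ∧
        (∀ p ∈ SPr D, ∃ y : ZMod r, y ^ 2 ^ n = (p : ZMod r)) ∧
          (Pool.Agent.Y698.SG.mat (IP D) (SPr D)).det ≠ 0) := by
    unfold FiniteShaTwo
    rw [base_eq hj]
    exact heq.symm
  have hdet : FiniteShaTwo K D ↔ (mat (IP D) (SPr D)).det ≠ 0 :=
    hCond.trans ⟨fun h => h.2.2, fun h => ⟨hcl1, hcl2, h⟩⟩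
  have han : ∀ l : ℂ, anOrder K (twist D) l = Pool.Agent.Y698.SG.quoT K j l := by
    intro l
    unfold anOrder torsOrder Omega
    rw [base_eq hj, real_eq hj, cplx_eq hj]
    unfold Pool.Agent.Y698.SG.quoT Pool.Agent.Y698.SG.tnum
    have hT : Tam (Pool.Agent.Y698.AX K j) = ∏ᶠ v, Pool.Agent.Y698.tam (Pool.Agent.Y698.AX K j) v :=
      rfl
    rw [hT]
    generalize (∏ᶠ v, Pool.Agent.Y698.tam (Pool.Agent.Y698.AX K j) v : ℕ) = t
    push_cast
    rfl
  obtain ⟨Λ, h1, h2, h3⟩ := Pool.Agent.Y698.SG.level_all (CyclotomicField r ℚ) K hK hn hir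
    hQ' hP' hprod
  have hL : IsLFunction K D Λ := ⟨h1, by rw [base_eq hj]; exact h2⟩
  by_cases hd : (mat (IP D) (SPr D)).det ≠ 0
  · left
    refine ⟨?_, hd⟩
    have hdt : Pool.Agent.Y698.SG.Dt r n (IP D) (SPr D) := by
      obtain ⟨k, rfl⟩ : ∃ k, n = k + 1 := ⟨n - 1, by omega⟩
      exact ⟨hn, hir, fun q hq => ⟨(hQ' q hq).1, (hQ' q hq).2, hcl1 q hq⟩,
          fun p hp => ⟨hP' p hp, hcl2 p hp⟩, hd⟩
    have hv : ∀ (Γ : Type) [LinearOrderedCommGroupWithZero Γ] (v : Valuation ℂ Γ), v 2 < 1 →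
        v (anOrder K (twist D) (Λ 1)) = 1 := by
      intro Γ _ v hv
      rw [han]
      exact ((h3 Γ v hv).2).2 (hCond.1 (hdet.2 hd))
    refine ⟨(hdet.2 hd).1, ?_, Λ, hL, ?_, hv⟩
    · apply Set.eq_singleton_iff_unique_mem.2
      refine ⟨⟨0, smul_zero _⟩, ?_⟩
      rintro x ⟨l, hl⟩
      revert x
      rw [base_eq hj]
      intro x hl
      obtain ⟨k, rfl⟩ : ∃ k, n = k + 1 := ⟨n - 1, by omega⟩
      exact Pool.Agent.Y698.SG.sha_two_powE (CyclotomicField r ℚ) K hK hdt hprod x l hl
    · intro h0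
      refine Pool.Agent.Y698.SG.exists_val2 fun Γ _ v hv' => ?_
      have h6 := hv Γ v hv'
      rw [h0, han] at h6
      unfold Pool.Agent.Y698.SG.quoT at h6
      rw [zero_mul, zero_mul, zero_div, map_zero] at h6
      exact zero_ne_one h6
  · right
    refine ⟨⟨?_, Λ, hL, ?_⟩, hd⟩
    · by_contra hne
      rw [not_or, not_infinite_iff_finite, not_exists] at hne
      apply hd
      rw [← hdet]
      refine ⟨hne.1, fun x hx => ?_⟩
      by_contra hx0
      exact hne.2 x ⟨hx0, hx⟩
    · intro Γ _ v hv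
      have h5 := h3 Γ v hv
      rw [han]
      refine lt_of_le_of_ne h5.1 fun h6 => hd (hdet.1 (hCond.2 (h5.2.1 h6)))

/-- the two cases exclude each other -/
lemma not_both {K : Type} [Field K] [NumberField K] {D : ℕ} : ¬ (BothOdd K D ∧ BothEven K D) := by
  rintro ⟨⟨h1, h2, -⟩, h3, -⟩
  rcases h3 with h3 | ⟨x, hx0, hx⟩
  · exact not_finite_iff_infinite.2 h3 h1
  · have h4 : x ∈ Sha2 (base (twist D) K) := ⟨1, by rw [pow_one, two_nsmul]; exact hx⟩
    rw [h2] at h4
    exact hx0 h4

open Pool.Agent.X99.C49 Pool.Agent.X99.C49.KP Pool.Agent.X99.C49.KR Pool.Agent.X99.PA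

lemma S_eq (D : ℕ) : S D = SPr D := rfl

lemma count_add {R : Finset ℕ} {n : ℕ → ℕ} {D : ℕ} {Q₁ Q₂ : ℕ → Prop}
    (h : ∀ q : ℕ, NewPrime R n q → ¬ q ∣ D → (Q₁ q ↔ ¬ Q₂ q)) (X : ℕ) :
    count R n D Q₁ X + count R n D Q₂ X = count R n D (fun _ => True) X := by
  classical
  unfold count
  rw [← Finset.card_union_of_disjoint]
  · congr 1
    ext q
    simp only [mem_union, mem_filter]
    constructor
    · rintro (⟨h1, h2, -⟩ | ⟨h1, h2, -⟩)
      · exact ⟨h1, h2, trivial⟩
      · exact ⟨h1, h2, trivial⟩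
    · rintro ⟨h1, h2, -⟩
      by_cases hd : Q₂ q
      · exact Or.inr ⟨h1, h2, hd⟩
      · exact Or.inl ⟨h1, h2, (h q h2.1 h2.2).2 hd⟩
  · rw [Finset.disjoint_left]
    intro q h1 h2
    rw [mem_filter] at h1 h2
    exact (h q h1.2.1.1 h1.2.1.2).1 h1.2.2 h2.2.2

open Classical in
lemma matrix_eq (D : ℕ) (x : S D → ZMod 2) :
    matrix D x = off (S D) + Matrix.diagonal x := by
  ext i j
  unfold matrix off nq
  rw [Matrix.add_apply, Matrix.of_apply, Matrix.of_apply, Matrix.diagonal_apply]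
  by_cases h : i = j
  · rw [if_pos h, if_pos h, if_pos h, zero_add]
  · rw [if_neg h, if_neg h, if_neg h, add_zero]

lemma k_eq (D : ℕ) : k D = nd (off (S D)) := by
  classical
  unfold k nd
  refine Pool.Agent.X99.GJ.fc _ fun x _ => ?_
  rw [matrix_eq]

/-- the class of the new primes -/
lemma new_iff {R : Finset ℕ} {n : ℕ → ℕ} (hR : HR R) {q : ℕ} :
    NewPrime R n q ↔ q.Prime ∧ Pool.Agent.X99.PA.BB R n q := by
  unfold NewPrime Pool.Agent.X99.PA.BB
  refine and_congr_right fun hq => ?_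
  rw [← and_assoc]
  refine and_congr ?_ ?_
  · constructor
    · rintro ⟨h4, h7⟩
      have hf : Fam q := ⟨hq.squarefree, fun p hp hpq => by
        rwa [(Nat.prime_dvd_prime_iff_eq hp hq).1 hpq]⟩
      have hm : q ∈ q.primeFactors := Nat.mem_primeFactors.2 ⟨hq, dvd_rfl, hq.ne_zero⟩
      rcases ((fam_iff q).2 hf).2.1 q hm with h | h
      · exact absurd ((sqA hf hm).1 h.2) h7
      · exact h.2
    · intro h
      have h28 : q % 28 = 5 ∨ q % 28 = 13 ∨ q % 28 = 17 := by
        have h' : q % 28 ∈ ({5, 13, 17} : Finset ℕ) := h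
        simpa using h'
      have h4 : q % 4 = 1 := by omega
      refine ⟨h4, ?_⟩
      have hf : Fam q := ⟨hq.squarefree, fun p hp hpq => by
        rwa [(Nat.prime_dvd_prime_iff_eq hp hq).1 hpq]⟩
      have hm : q ∈ q.primeFactors := Nat.mem_primeFactors.2 ⟨hq, dvd_rfl, hq.ne_zero⟩
      rw [← sqA hf hm]
      exact fun h' => Finset.disjoint_left.1 ok28.disj h' h
  · refine forall_congr' fun r => forall_congr' fun hr => and_congr ?_ Iff.rfl
    refine not_congr ⟨?_, fun h => ?_⟩
    · rintro rfl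
      exact Nat.mod_self _
    · exact ((Nat.prime_dvd_prime_iff_eq (hR r hr).1 hq).1 (Nat.dvd_of_mod_eq_zero h)).symm

end proof

open Pool.Agent.X99.C49 Pool.Agent.X99.C49.KR Pool.Agent.X99.PA in
/-- **Prime twists of an arbitrary twist, over many fields.** -/
theorem result (R : Finset ℕ) (n : ℕ → ℕ) (hR0 : R.Nonempty)
    (hR : ∀ r ∈ R, r.Prime ∧ r % 4 = 1 ∧ ¬ IsSquare (-7 : ZMod r) ∧ 1 ≤ n r)
    (K : ∀ r : ℕ, IntermediateField ℚ (CyclotomicField r ℚ))
    (hK : ∀ r ∈ R, Module.finrank ℚ (K r) = 2 ^ n r) {D : ℕ} (hD : ClassAll R n D) :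
    (∀ q : ℕ, NewPrime R n q → ¬ q ∣ D →
      ClassAll R n (D * q) ∧
      ((∀ r ∈ R, BothOdd (K r) (D * q)) ∨ (∀ r ∈ R, BothEven (K r) (D * q))) ∧
      ∀ r ∈ R, ¬ (BothOdd (K r) (D * q) ∧ BothEven (K r) (D * q))) ∧
    Filter.Tendsto (fun X : ℕ => (count R n D (fun q => ∀ r ∈ R, BothOdd (K r) (D * q)) X : ℝ) /
      (count R n D (fun _ => True) X : ℝ)) Filter.atTop (nhds (δ D)) ∧
    Filter.Tendsto (fun X : ℕ => (count R n D (fun q => ∀ r ∈ R, BothEven (K r) (D * q)) X : ℝ) /
      (count R n D (fun _ => True) X : ℝ)) Filter.atTop (nhds (1 - δ D)) ∧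
    Odd (k D) ∧ (1 / 2 : ℝ) ^ (S D).card ≤ δ D ∧ δ D ≤ 1 := by
  classical
  have hHR : KR.HR R := by
    intro r hr
    obtain ⟨h1, h2, h3, -⟩ := hR r hr
    refine ⟨h1, ?_⟩
    have h4 : Nat.Coprime (2 ^ 2 * 7) r := by
      refine Nat.Coprime.mul_left ?_ ?_
      · refine Nat.Coprime.pow_left 2 ?_
        rw [Nat.coprime_primes Nat.prime_two h1]
        rintro rfl
        exact absurd h2 (by decide)
      · rw [Nat.coprime_primes (by norm_num) h1]
        rintro rfl
        exact absurd h2 (by decide)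
    exact h4
  have hcl : ∀ D : ℕ, ClassAll R n D ↔ KR.FamR R n D := by
    intro D
    unfold ClassAll KR.FamR
    refine and_congr_right fun h0 => forall_congr' fun r => forall_congr' fun _ => ?_
    constructor
    · rintro ⟨h1, h2⟩
      exact ⟨h0, fun p hp hpD => (h2 p hp hpD).2⟩
    · rintro ⟨h1, h2⟩
      exact ⟨h0.1, fun p hp hpD => ⟨h0.2 p hp hpD, h2 p hp hpD⟩⟩
  have hone : ∀ D : ℕ, KR.FamR R n D → ∀ r ∈ R,
      (BothOdd (K r) D ∧ (mat (IP D) (SPr D)).det ≠ 0) ∨
        (BothEven (K r) D ∧ ¬ (mat (IP D) (SPr D)).det ≠ 0) := by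
    intro D hD r hr
    obtain ⟨h1, h2, h3, h4⟩ := hR r hr
    exact one_field h1 h2 h3 h4 (K r) (hK r hr) (hD.2 r hr)
  have hF := (hcl D).1 hD
  have hall : ∀ D : ℕ, KR.FamR R n D → ((∀ r ∈ R, BothOdd (K r) D) ↔ (mat (IP D) (SPr D)).det ≠ 0) ∧
      ((∀ r ∈ R, BothEven (K r) D) ↔ ¬ (mat (IP D) (SPr D)).det ≠ 0) := by
    intro D hD
    obtain ⟨r0, hr0⟩ := hR0
    refine ⟨⟨fun h => ?_, fun h r hr => ?_⟩, ⟨fun h => ?_, fun h r hr => ?_⟩⟩
    · rcases hone D hD r0 hr0 with h' | h'
      · exact h'.2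
      · exact absurd ⟨h r0 hr0, h'.1⟩ not_both
    · rcases hone D hD r hr with h' | h'
      · exact h'.1
      · exact absurd h h'.2
    · rcases hone D hD r0 hr0 with h' | h'
      · exact absurd ⟨h'.1, h r0 hr0⟩ not_both
      · exact h'.2
    · rcases hone D hD r hr with h' | h'
      · exact absurd h'.2 h
      · exact h'.1
  have hodd : Odd (k D) := by
    rw [k_eq]
    exact nd_odd _
  have hle : δ D ≤ 1 := by
    unfold δ
    rw [div_le_one (by positivity), k_eq]
    have h1 := nd_le (off (S D))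
    rw [Fintype.card_coe] at h1
    exact_mod_cast h1
  -- the total number and the limit for a property given by the criterion
  have hlim : Filter.Tendsto (fun X : ℕ =>
      (count R n D (fun q => ∀ r ∈ R, BothOdd (K r) (D * q)) X : ℝ) /
      (count R n D (fun _ => True) X : ℝ)) Filter.atTop (nhds (δ D)) := by
    have h := prime_twists (R := R) (n := n) hHR hF (fun D => (mat (IP D) (SPr D)).det ≠ 0)
      (fun D' _ => Iff.rfl)
    unfold δ
    rw [k_eq]
    refine h.congr fun X => ?_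
    unfold count
    refine congrArg₂ (fun a b : ℕ => (a : ℝ) / (b : ℝ)) ?_ ?_
    · refine Pool.Agent.X99.GJ.fc _ fun q _ => ?_
      rw [new_iff hHR]
      constructor
      · rintro ⟨h1, h2, h3, h4⟩
        exact ⟨⟨⟨h1, h3⟩, h2⟩, (hall _ (new_fam hF h1 h2 h3).1).1.2 h4⟩
      · rintro ⟨⟨⟨h1, h3⟩, h2⟩, h4⟩
        exact ⟨h1, h2, h3, (hall _ (new_fam hF h1 h2 h3).1).1.1 h4⟩
    · refine Pool.Agent.X99.GJ.fc _ fun q _ => ?_
      rw [new_iff hHR, and_true]
      constructor
      · rintro ⟨h1, h2, h3⟩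
        exact ⟨⟨h1, h3⟩, h2⟩
      · rintro ⟨⟨h1, h3⟩, h2⟩
        exact ⟨h1, h2, h3⟩
  refine ⟨fun q hq hqD => ?_, hlim, ?_, hodd, ?_, hle⟩
  · obtain ⟨h1, h2⟩ := (new_iff hHR).1 hq
    have h3 := (new_fam hF h1 hqD h2).1
    refine ⟨(hcl _).2 h3, ?_, fun r _ => not_both⟩
    by_cases hd : (mat (IP (D * q)) (SPr (D * q))).det ≠ 0
    · exact Or.inl ((hall _ h3).1.2 hd)
    · exact Or.inr ((hall _ h3).2.2 hd)
  · -- the complement
    have hsum : ∀ X : ℕ, count R n D (fun q => ∀ r ∈ R, BothOdd (K r) (D * q)) X +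
        count R n D (fun q => ∀ r ∈ R, BothEven (K r) (D * q)) X = count R n D (fun _ => True) X := by
      refine count_add fun q hq hqD => ?_
      obtain ⟨h3, h4⟩ := (new_iff hHR).1 hq
      have h5 := hall _ (new_fam hF h3 hqD h4).1
      rw [h5.1, h5.2, not_not]
    have hpos : ∀ᶠ X : ℕ in Filter.atTop, 0 < (count R n D (fun _ => True) X : ℝ) := by
      have hd0 : 0 < δ D := by
        unfold δ
        exact div_pos (by exact_mod_cast hodd.pos) (by positivity)
      have h := hlim.eventually (lt_mem_nhds hd0)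
      filter_upwards [h] with X hX
      by_contra h0
      have h1 : (count R n D (fun _ => True) X : ℝ) = 0 :=
        le_antisymm (not_lt.1 h0) (by positivity)
      rw [h1, div_zero] at hX
      exact lt_irrefl _ hX
    refine (hlim.const_sub 1).congr' ?_
    filter_upwards [hpos] with X hX
    rw [eq_div_iff hX.ne', sub_mul, one_mul, div_mul_cancel₀ _ hX.ne', ← hsum X]
    push_cast
    ring
  · unfold δ
    rw [div_pow, one_pow]
    refine div_le_div_of_nonneg_right ?_ (by positivity)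
    exact_mod_cast hodd.pos

end Pool.Agent.Results.MP_e996df_nt.PrimeTwistsCyclicFields
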