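import Pool.Agent.Y699.R10
import Pool.Agent.Y699.Cls
import Pool.Agent.Y715.QT.Seq2
import Pool.Agent.Y495.QT.Pri
import Pool.Agent.X253.Q2.Crit

/-!
# The 2-part of the conjecture of Birch and Swinnerton-Dyer for the quartic twists `y² = x³ + D x`
# over `ℚ(i)`, arbitrary exponents

`K` is a number field with an isomorphism `e` of the ring `ℤ[i]` of Gaussian integers with its ring
of integers (so `K = ℚ(i)`), and `E_D : y² = x³ + D x` for a Gaussian integer `D = ∏ π ^ m_π`, where the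
`π` are primes `≡ 1` modulo `2 + 2i` and the exponents are `1`, `2` or `3` (reduction of the types III,
I₀* and III*).  We prove a criterion (`Criterion`: a condition for the quadratic residue symbols of the
primes of odd exponents, and `D / π²` is not a square modulo `π` if `m_π = 2`) for the following: `E_D(K)`
has two elements, the 2-primary part of `Ш(E_D/K)` is trivial, `L(E_D/K, s)` is entire,
`L(E_D/K, 1) ≠ 0`, and `L(E_D/K, 1) √|disc K| #E_D(K)² / (Ω ∏ c_v)`, which should be the order of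
`Ш(E_D/K)`, is a unit at every valuation of `ℂ` above `2`.

Second, for a positive proportion of all the parameters `D` without fourth powers of primes, that is of
all elliptic curves over `ℚ(i)` with `j = 1728`, there is an infinite set `Q` of primes such that for
all finite subsets `S₄` of `Q` and all finite sets `S₂` of allowed primes the same holds for all the
quartic twists of `E_D` by the products `∏ l ^ m_l ∏ q ^ (2 n_q)`, `l ∈ S₄`, `q ∈ S₂`, with arbitrary
exponents.

The case of squarefree `D` is the theorem `MP_9ab903_nt.TwoPartQuarticProportion` of the library, whose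
proof (library of helper715 and helper699) is extended here: the 2-adic valuation of the central value
from the congruence `Y699.M4_cg`, the descent with arbitrary exponents `Y261/QT/DES` and `X253/QT/Sha`, the
Tamagawa numbers of the types I₀* and III*.
-/

set_option autoImplicit false

namespace Pool.Agent.Results.MP_e996df_nt.QuarticTwistsTwoPart

open NumberField IsDedekindDomain

/-- The curve `y² = x³ + D x`. -/
noncomputable def curve {K : Type} [Field K] [NumberField K] (e : GaussianInt ≃+* 𝓞 K)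
    (D : GaussianInt) : WeierstrassCurve K :=
  ⟨0, 0, 0, algebraMap (𝓞 K) K (e D), 0⟩

open scoped Classical in
/-- The equation `E` is minimal at every finite place `v`, and `c v` is the Tamagawa number of `E` at
`v`: the index in `E(K_v)` of the subgroup of the points of nonsingular reduction. -/
def IsTamagawa {K : Type} [Field K] [NumberField K] (E : WeierstrassCurve K)
    (c : HeightOneSpectrum (𝓞 K) → ℕ) : Prop :=
  (∀ v : HeightOneSpectrum (𝓞 K),
    (E.baseChange (v.adicCompletion K)).IsMinimal (v.adicCompletionIntegers K) ∧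
    ∃ H : AddSubgroup (E.baseChange (v.adicCompletion K)).toAffine.Point,
      (∀ P, P ∈ H ↔ Pool.Agent.Y696.NonsingRed Valued.v (E.baseChange (v.adicCompletion K)) P) ∧
      H.index = c v) ∧
  {v | c v ≠ 1}.Finite

/-- `Λ` is the lattice of periods of the differential `dx / (2y + a₁x + a₃)` of the curve `E`, embedded
in the complex numbers by `σ`. -/
def IsPeriodLattice {K : Type} [Field K] (E : WeierstrassCurve K) (σ : K →+* ℂ)
    (Λ : PeriodPair) : Prop :=
  Λ.g₂ = σ E.c₄ / 12 ∧ Λ.g₃ = σ E.c₆ / 216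

/-- Twice the area of a fundamental parallelogram of the lattice. -/
noncomputable def period (Λ : PeriodPair) : ℝ := 2 * |((starRingEnd ℂ) Λ.ω₁ * Λ.ω₂).im|

/-- The conjecture of Birch and Swinnerton-Dyer, the formula up to units at the valuations above `2`,
for a curve `E` over an imaginary quadratic field `K` with `E(K)` finite and the 2-primary part
of `Ш(E/K)` trivial:
`L(E/K, s)` is entire, `L(E/K, 1) ≠ 0`, and `L(E/K, 1) √|disc K| #E(K)² / (Ω ∏ c_v)` is a unit
at every valuation `w` of the field of complex numbers with `w 2 < 1`. -/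
def TwoPart {K : Type} [Field K] [NumberField K] (E : WeierstrassCurve K) : Prop :=
  Finite E.toAffine.Point ∧
  (∀ (n : ℕ) (x : Pool.Agent.TH841.NF.D.Sha E), 2 ^ n • x = 0 → x = 0) ∧
  ∃ (L : ℂ → ℂ) (c : HeightOneSpectrum (𝓞 K) → ℕ),
    Differentiable ℂ L ∧
    (∀ s : ℂ, 3 / 2 < s.re →
      LSeriesSummable ((fun n : ℤ => (n : ℂ)) ∘ E.LFunction) s ∧ L s = E.LSeries s) ∧
    L 1 ≠ 0 ∧
    IsTamagawa E c ∧
    ∀ σ : K →+* ℂ, (∃ Λ : PeriodPair, IsPeriodLattice E σ Λ) ∧
      ∀ Λ : PeriodPair, IsPeriodLattice E σ Λ →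
        ∀ (Γ : Type) [LinearOrderedCommGroupWithZero Γ] (w : Valuation ℂ Γ), w 2 < 1 →
          w (L 1 * (Real.sqrt |(discr K : ℝ)| : ℝ) * (Nat.card E.toAffine.Point : ℂ) ^ 2 /
            ((period Λ : ℂ) * ((∏ᶠ v, c v : ℕ) : ℂ))) = 1

/-- `E_D : y² = x³ + D x` has exactly two points over `K` and satisfies `TwoPart`. -/
def Good {K : Type} [Field K] [NumberField K] (e : GaussianInt ≃+* 𝓞 K) (D : GaussianInt) : Prop :=
  Nat.card (curve e D).toAffine.Point = 2 ∧ TwoPart (curve e D)

/-- The parameter `D ∏ l ^ m_l ∏ q ^ (2 n_q)` of a quartic twist of `E_D`. -/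
def param (D : GaussianInt) (S₄ S₂ : Finset GaussianInt) (m n : GaussianInt → ℕ) : GaussianInt :=
  D * ((∏ l ∈ S₄, l ^ m l) * ∏ q ∈ S₂, q ^ (2 * n q))

/-- `d` is primary: `d ≡ 1` modulo `2 + 2i`. -/
def Primary (d : GaussianInt) : Prop := (⟨2, 2⟩ : GaussianInt) ∣ d - 1

open scoped Classical in
/-- The condition on a finite set `V` of primary primes `π` with exponents `m π = 1, 2, 3`:
the norm of `D = ∏ π ^ m π` is `13` modulo `16`; if `m π = 2` then `D / π²` is not a square modulo `π`; and the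
graph on the primes with odd exponents, in which `π` and `ρ` are joined if `ρ` is not a square modulo `π`,
has a Laplacian matrix over the field with two elements whose kernel consists of the constants. -/
def Criterion (V : Finset GaussianInt) (m : GaussianInt → ℕ) : Prop :=
  (∀ π ∈ V, Prime π ∧ Primary π ∧ (m π = 1 ∨ m π = 2 ∨ m π = 3)) ∧
  (∏ π ∈ V, π ^ m π).norm % 16 = 13 ∧
  (∀ π ∈ V, m π = 2 → ¬ ∃ x : GaussianInt, π ∣ (∏ ρ ∈ V.erase π, ρ ^ m ρ) - x ^ 2) ∧
  ∀ z : GaussianInt → ZMod 2,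
    (∀ π ∈ V, m π ≠ 2 → ∑ ρ ∈ V.filter
      (fun ρ => m ρ ≠ 2 ∧ ρ ≠ π ∧ ¬ ∃ x : GaussianInt, π ∣ ρ - x ^ 2), (z ρ + z π) = 0) →
    ∀ π ∈ V, m π ≠ 2 → ∀ ρ ∈ V, m ρ ≠ 2 → z π = z ρ

/-- `D` is not zero and no fourth power of a prime divides it. -/
def FourthPowerFree (D : GaussianInt) : Prop := D ≠ 0 ∧ ∀ π : GaussianInt, Prime π → ¬ π ^ 4 ∣ D

/-- All the parameters `D` of norm at most `X`; each of them is one elliptic curve over `ℚ(i)` with
`j = 1728`, up to isomorphism. -/
def Family (X : ℕ) : Set GaussianInt := {D | FourthPowerFree D ∧ D.norm ≤ X}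

/-- The primes allowed for the exponent two: `q` is a primary prime that does not divide `D`, of norm
`1` modulo `8`, `D` is not a square modulo `q`, and the elements of `S₄` are prime to `q` and squares
modulo `q`. -/
def Allowed (D : GaussianInt) (S₄ : Finset GaussianInt) : Set GaussianInt :=
  {q | Prime q ∧ Primary q ∧ ¬ q ∣ D ∧ q.norm % 8 = 1 ∧ (¬ ∃ x : GaussianInt, q ∣ D - x ^ 2) ∧
    ∀ l ∈ S₄, ¬ q ∣ l ∧ ∃ x : GaussianInt, q ∣ l - x ^ 2}

/-- The parameters `D` in `Family X` for which there is an infinite set `Q` of primary primes not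
dividing `D` such that for every finite subset `S₄` of `Q` the set `Allowed D S₄` is infinite, and for
every finite subset `S₂` of `Allowed D S₄` and all exponents `m l < 4`, `n q < 2` the quartic twist
`y² = x³ + D' x` of `E_D` with `D' = D ∏ l ^ m_l ∏ q ^ (2 n_q)` has exactly two points over `K = ℚ(i)` and
satisfies `TwoPart`. -/
def Twisted (X : ℕ) : Set GaussianInt := {D | D ∈ Family X ∧
  ∃ Q : Set GaussianInt, Q.Infinite ∧ (∀ l ∈ Q, Prime l ∧ Primary l ∧ ¬ l ∣ D) ∧
    ∀ S₄ : Finset GaussianInt, (∀ l ∈ S₄, l ∈ Q) → (Allowed D S₄).Infinite ∧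
      ∀ S₂ : Finset GaussianInt, (∀ q ∈ S₂, q ∈ Allowed D S₄) → ∀ m n : GaussianInt → ℕ,
        (∀ l ∈ S₄, m l < 4) → (∀ q ∈ S₂, n q < 2) →
        ∀ (K : Type) [Field K] [NumberField K] (e : GaussianInt ≃+* 𝓞 K),
          Good e (param D S₄ S₂ m n)}

/-- The criterion, for a family of primes indexed by a finite type. -/
theorem curve_good {ι : Type} [Fintype ι] [DecidableEq ι] {pr : ι → GaussianInt} {V : Finset ι}
    {ex : ι → ℕ} (hg : Pool.Agent.Y715.QT.GE pr V ex) (K : Type) [Field K] [NumberField K]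
    (e : GaussianInt ≃+* 𝓞 K) :
    Good e (Pool.Agent.Y715.QT.PE pr V ex) := by
  set D := Pool.Agent.Y715.QT.PE pr V ex with hD
  have hc : Nat.card (curve e D).toAffine.Point = 2 := Pool.Agent.X253.Q2.card_two e hg
  have hD0 : algebraMap (𝓞 K) K (e D) ≠ 0 :=
    Pool.Agent.Y715.Z.em0_ne e (Pool.Agent.X253.QT.PE_ne hg)
  have hT : Pool.Agent.Y682.IsT (curve e D) 0 (Pool.Agent.Y715.Z.em0 e D) :=
    { h1 := rfl, h2 := rfl, h3 := rfl, h4 := rfl, h6 := rfl, hB := hD0
      hD := by
        rw [zero_pow two_ne_zero, zero_sub, neg_ne_zero]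
        exact mul_ne_zero (by norm_num) hD0 }
  have hex := Pool.Agent.X253.Q2.ex4 hg.ex
  have hex0 : ∀ i ∈ V, ex i ≠ 0 := by
    intro i hi h0
    exact hex i hi (by rw [h0])
  obtain ⟨hcf, hcp⟩ := Pool.Agent.X253.Q2.cT_prod e hg
  obtain ⟨hH, -, hL0, -⟩ := Pool.Agent.Y715.QT.an ι pr hg.pf V ex hg.ex hg.wt hg.ker hg.tq
  refine ⟨hc, Nat.finite_of_card_ne_zero (by rw [hc]; norm_num),
    fun n x hx => Pool.Agent.X253.QT.sha_pow e hg hT n x hx,
    Pool.Agent.Y699.LG (Pool.Agent.Y699.XX4 hg.pf V ex),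
    Pool.Agent.Y715.Z.cT e D,
    Pool.Agent.Y699.LG_diff hH,
    fun s hs => Pool.Agent.X253.Q2.lser e hg.pf hg.wt hex hex0
      (fun v => Pool.Agent.X253.Q2.minimal e hg v) hs,
    Pool.Agent.Y699.LG_one hL0,
    ⟨fun v => ?_, hcf⟩, fun σ => ?_⟩
  · have hbc : (curve e D).baseChange (v.adicCompletion K) = Pool.Agent.Y715.Z.q4
        (algebraMap K (v.adicCompletion K) (Pool.Agent.Y715.Z.em0 e D)) :=
      Pool.Agent.Y715.Z.q4_map _ _
    rw [hbc]
    exact ⟨Pool.Agent.X253.Q2.minimal e hg v, Pool.Agent.X253.Q2.tamagawa e hg v⟩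
  · have h4 : σ (curve e D).c₄ / 12 = -4 * σ (Pool.Agent.Y715.Z.em0 e D) := by
      have h5 : (curve e D).c₄ = -48 * Pool.Agent.Y715.Z.em0 e D := Pool.Agent.Y715.Z.q4_c₄ _
      rw [h5, map_mul, map_neg, map_ofNat]
      ring
    have h6 : σ (curve e D).c₆ / 216 = 0 := by
      have h7 : (curve e D).c₆ = 0 := by
        simp only [curve, WeierstrassCurve.c₆, WeierstrassCurve.b₂, WeierstrassCurve.b₄,
          WeierstrassCurve.b₆]
        ring
      rw [h7, map_zero, zero_div]
    have hδ := Pool.Agent.Y715.Z.norm_emb e σ D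
    have hσ0 : σ (Pool.Agent.Y715.Z.em0 e D) ≠ 0 := by
      rw [Ne, map_eq_zero]; exact hD0
    refine ⟨?_, fun Λ hΛ Γ _ w hw => ?_⟩
    · obtain ⟨Λ, h8, h9⟩ := Pool.Agent.Y715.Z.per_ex hσ0
      exact ⟨Λ, by rw [h4]; exact h8, by rw [h6]; exact h9⟩
    · have h10 := Pool.Agent.X253.Q2.val_quot hg hδ (hΛ.1.trans h4) (hΛ.2.trans h6) w hw
      rw [Pool.Agent.Y715.Z.sqrt_discr e, hc, hcp]
      refine Eq.trans ?_ h10
      unfold period
      congr 1
      push_cast
      norm_num

theorem primary_iff (d : GaussianInt) :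
    Primary d ↔ Pool.Agent.H304R2.EC.A1.prim d := (Pool.Agent.W164.RC.prim_iff_dvd d).symm

theorem pp_iff (d : GaussianInt) : Prime d ∧ Primary d ↔ Pool.Agent.Y699.PP d :=
  ⟨fun h => ⟨h.1, (primary_iff d).1 h.2⟩, fun h => ⟨h.pr, (primary_iff d).2 h.prm⟩⟩

theorem allowed_eq (D : GaussianInt) (S₄ : Finset GaussianInt) :
    Allowed D S₄ = {q | Pool.Agent.Y715.QT.Alw D S₄ q} := by
  ext q
  constructor
  · rintro ⟨h1, h2, h3, h4, h5, h6⟩
    exact ⟨(pp_iff q).1 ⟨h1, h2⟩, h3, h4, h5, h6⟩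
  · intro h
    have h1 := (pp_iff q).2 h.pp
    exact ⟨h1.1, h1.2, h.nd, h.nm, h.ns, h.cr⟩

/-- The criterion. -/
theorem criterion {V : Finset GaussianInt} {m : GaussianInt → ℕ} (h : Criterion V m)
    (K : Type) [Field K] [NumberField K] (e : GaussianInt ≃+* 𝓞 K) :
    Good e (∏ π ∈ V, π ^ m π) := by
  classical
  obtain ⟨h1, h2, h3, h4⟩ := h
  obtain ⟨hg, hP⟩ := Pool.Agent.X253.Q2.ge_of (V := V) (m := m)
    (fun π hπ => (pp_iff π).1 ⟨(h1 π hπ).1, (h1 π hπ).2.1⟩) (fun π hπ => (h1 π hπ).2.2) h2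
    (fun z hz => h4 z (fun π hπ hm => by
      have h5 := hz π hπ hm
      convert h5))
    h3
  rw [← hP]
  exact curve_good hg K e

theorem good_twisted {D : GaussianInt} (hg : Pool.Agent.Y699.Good4 D) :
    ∃ Q : Set GaussianInt, Q.Infinite ∧ (∀ l ∈ Q, Prime l ∧ Primary l ∧ ¬ l ∣ D) ∧
    ∀ S₄ : Finset GaussianInt, (∀ l ∈ S₄, l ∈ Q) → (Allowed D S₄).Infinite ∧
      ∀ S₂ : Finset GaussianInt, (∀ q ∈ S₂, q ∈ Allowed D S₄) → ∀ m n : GaussianInt → ℕ,
        (∀ l ∈ S₄, m l < 4) → (∀ q ∈ S₂, n q < 2) →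
        ∀ (K : Type) [Field K] [NumberField K] (e : GaussianInt ≃+* 𝓞 K),
          Good e (param D S₄ S₂ m n) := by
  classical
  have hD := hg.ps.ne
  obtain ⟨p1, hp1⟩ := Pool.Agent.Y715.QT.exists_p1 hg
  obtain ⟨Q, hQ1, hQ2, hQ3⟩ := Pool.Agent.Y715.QT.exists_set Pool.Agent.Y495.QT.pri hD hp1
  refine ⟨Q, hQ1, fun l hl => ?_, fun S₄ hS₄ => ?_⟩
  · have h1 := (pp_iff l).2 (hQ2 l hl).1
    exact ⟨h1.1, h1.2, (hQ2 l hl).2⟩
  · rw [allowed_eq]
    refine ⟨Pool.Agent.Y715.QT.alw_infinite Pool.Agent.Y495.QT.pri hg hp1 (hQ3 S₄ hS₄),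
      fun S₂ hS₂ m n hm hn K _ _ e => ?_⟩
    have hA : Pool.Agent.Y715.QT.Adm2 D p1 S₄ S₂ := Pool.Agent.Y715.QT.adm2_of (hQ3 S₄ hS₄) hS₂
    obtain ⟨ι, i1, i2, pr, V, ex, h1, h2⟩ := Pool.Agent.X253.Q2.ge_twist hg hp1 hA hm hn
    unfold param
    rw [← h2]
    exact curve_good h1 K e

theorem family_finite (X : ℕ) : (Family X).Finite := by
  refine (Pool.Agent.Y699.fin_norm_le X).subset ?_
  rintro D ⟨-, h⟩
  have h0 := GaussianInt.norm_nonneg D
  show D.norm.natAbs ≤ X
  omega

/-- There are at most `9 X` parameters of norm at most `X`. -/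
theorem family_le {X : ℕ} (hX : 1 ≤ X) : (Family X).ncard ≤ 9 * X := by
  classical
  set s := Nat.sqrt X with hs
  have hs1 : 1 ≤ s := Nat.le_sqrt.2 (by omega)
  set B : Finset (ℤ × ℤ) := (Finset.Icc (-(s : ℤ)) s) ×ˢ (Finset.Icc (-(s : ℤ)) s) with hB
  have hinj : Set.InjOn (fun D : GaussianInt => (D.re, D.im)) (Family X) := by
    intro a _ b _ hab
    simp only [Prod.mk.injEq] at hab
    exact Zsqrtd.ext hab.1 hab.2
  have hmaps : ∀ D ∈ Family X, (fun D : GaussianInt => (D.re, D.im)) D ∈ (B : Set (ℤ × ℤ)) := by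
    rintro D ⟨-, h⟩
    have h1 : D.norm = D.re ^ 2 + D.im ^ 2 := by
      rw [Zsqrtd.norm_def]; ring
    have h4 : D.re.natAbs ≤ s := by
      rw [hs, Nat.le_sqrt']; zify; rw [sq_abs]; nlinarith [sq_nonneg D.im]
    have h5 : D.im.natAbs ≤ s := by
      rw [hs, Nat.le_sqrt']; zify; rw [sq_abs]; nlinarith [sq_nonneg D.re]
    rw [hB, Finset.mem_coe, Finset.mem_product, Finset.mem_Icc, Finset.mem_Icc]
    refine ⟨⟨?_, ?_⟩, ⟨?_, ?_⟩⟩ <;> simp only <;> omega
  have h1 := Set.ncard_le_ncard_of_injOn _ hmaps hinj (Finset.finite_toSet B)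
  rw [Set.ncard_coe_finset] at h1
  refine h1.trans ?_
  have h2 : (Finset.Icc (-(s : ℤ)) s).card = 2 * s + 1 := by
    rw [Int.card_Icc]; omega
  rw [hB, Finset.card_product, h2]
  have h3 : s * s ≤ X := Nat.sqrt_le X
  nlinarith

/-- Every elliptic curve over `ℚ(i)` with `j = 1728` is isomorphic to `y² = x³ + D x` for exactly one
`D` that no fourth power of a prime divides. -/
theorem classification {K : Type} [Field K] [NumberField K] (e : GaussianInt ≃+* 𝓞 K)
    (E : WeierstrassCurve K) [E.IsElliptic] (hj : E.j = 1728) :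
    ∃! D : GaussianInt, FourthPowerFree D ∧
      ∃ C : WeierstrassCurve.VariableChange K, C • E = curve e D := by
  let _ : Algebra GaussianInt K := ((algebraMap (𝓞 K) K).comp (e : GaussianInt →+* 𝓞 K)).toAlgebra
  have _ : IsFractionRing GaussianInt K := IsFractionRing.of_ringEquiv_left e (fun _ => rfl)
  exact Pool.Agent.Y699.cls1728 E hj

/-- **Main theorem.**  Let `K = ℚ(i)`.

1. If a finite set `V` of primes with exponents `1`, `2`, `3` satisfies `Criterion`, then for
`D = ∏ π ^ m π` the curve `E_D : y² = x³ + D x` over `K` has exactly two points, the 2-primary part of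
`Ш(E_D/K)` is trivial, `L(E_D/K, s)` is entire with `L(E_D/K, 1) ≠ 0`, and
`L(E_D/K, 1) √|disc K| #E_D(K)² / (Ω ∏ c_v)` is a unit at every valuation above `2`.

2. There is `c > 0` such that for all large `X` at least the proportion `c` of all Gaussian integers
`D` of norm at most `X` that no fourth power of a prime divides, and at least `c X` of them, have an
infinite set `Q` of primes such that the same holds for all the quartic twists of `E_D` by
`∏ l ^ m_l ∏ q ^ (2 n_q)`, where the `l` are in `Q`, the `q` are allowed (infinitely many are) and the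
exponents are arbitrary.

3. The parameters `D` are the isomorphism classes of the elliptic curves over `K` with `j`-invariant
`1728`. -/
theorem result :
    (∀ (V : Finset GaussianInt) (m : GaussianInt → ℕ), Criterion V m →
      ∀ (K : Type) [Field K] [NumberField K] (e : GaussianInt ≃+* 𝓞 K),
        Good e (∏ π ∈ V, π ^ m π)) ∧
    (∃ c : ℝ, 0 < c ∧ ∃ X₀ : ℕ, ∀ X : ℕ, X₀ ≤ X →
      c * ((Family X).ncard : ℝ) ≤ ((Twisted X).ncard : ℝ) ∧ c * X ≤ ((Twisted X).ncard : ℝ)) ∧
    ∀ (K : Type) [Field K] [NumberField K] (e : GaussianInt ≃+* 𝓞 K) (E : WeierstrassCurve K)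
      [E.IsElliptic], E.j = 1728 → ∃! D : GaussianInt, FourthPowerFree D ∧
        ∃ C : WeierstrassCurve.VariableChange K, C • E = curve e D := by
  refine ⟨fun V m h K _ _ e => criterion h K e, ?_, fun K _ _ e E _ hj => classification e E hj⟩
  obtain ⟨c, hc, X₀, h⟩ := Pool.Agent.Y699.positive₄
  have key : ∀ X : ℕ, X₀ ≤ X → c * X ≤ ((Twisted X).ncard : ℝ) := by
    intro X hX
    refine (h X hX).trans ?_
    have h1 : ((Pool.Agent.Y699.GB₄ X : Finset GaussianInt) : Set GaussianInt) ⊆ Twisted X := by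
      intro D hD
      have h2 : D ∈ Pool.Agent.Y699.SB X ∧ Pool.Agent.Y699.Good4 D := by
        have h0 := Finset.mem_coe.1 hD
        unfold Pool.Agent.Y699.GB₄ at h0
        classical
        exact Finset.mem_filter.1 h0
      have h3 := (Pool.Agent.Y699.mem_SB).1 h2.1
      refine ⟨⟨⟨h3.2.ne, fun π hπ h5 => ?_⟩, ?_⟩, good_twisted h2.2⟩
      · exact hπ.not_isUnit (h3.2.sqf π (dvd_trans ⟨π ^ 2, by ring⟩ h5))
      · have h4 : D.norm.natAbs ≤ X := h3.1
        omega
    have h5 := Set.ncard_le_ncard h1 ((family_finite X).subset fun D hD => hD.1)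
    rw [Set.ncard_coe_finset] at h5
    exact_mod_cast h5
  refine ⟨c / 9, by positivity, max X₀ 1, fun X hX => ?_⟩
  have hX0 : X₀ ≤ X := (le_max_left _ _).trans hX
  have hX1 : 1 ≤ X := (le_max_right _ _).trans hX
  have h1 := key X hX0
  have h2 : ((Family X).ncard : ℝ) ≤ 9 * X := by exact_mod_cast family_le hX1
  have h3 : (0 : ℝ) ≤ X := Nat.cast_nonneg X
  constructor
  · calc c / 9 * ((Family X).ncard : ℝ) ≤ c / 9 * (9 * X) :=
          mul_le_mul_of_nonneg_left h2 (by positivity)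
      _ = c * X := by ring
      _ ≤ _ := h1
  · calc c / 9 * (X : ℝ) ≤ c * X := by nlinarith
      _ ≤ _ := h1

end Pool.Agent.Results.MP_e996df_nt.QuarticTwistsTwoPart
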