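import Mathlib
import Pool.Agent.Y696.Nh
import Pool.Agent.Y696.Aq

/-!
# The 2-part of the Birch and Swinnerton-Dyer conjecture for `y² + y = x³` over abelian extensions
of 2-power degree of `ℚ(√-3, √-7)`

`N = ℚ(√-3, √-7)` (class number one) and `K / N` is a Galois extension of degree `2 ^ n` with an
Artin map of modulus `c` (so `K / N` is abelian; every abelian extension has one, by the reciprocity
law), and `2` is not a cube modulo any prime of `N` that divides `c`. The field `K` need not be
Galois over `ℚ`, nor over the field of complex multiplication `ℚ(√-3)`.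

For `E : y² + y = x³` over `K` all parts of the question for `p = 2` are proved, with all terms units
at `2`:

* `L(E / K, s)` (Mathlib's, all Euler factors) is continued to a meromorphic function on `ℂ`, it is
  analytic at `1` and `L(E / K, 1) ≠ 0`, and `E(K)` is finite, so (i) holds with `r = 0`;
* `Ш(E / K)` has no element of order two, so `Ш(E / K)[2^∞] = 0`, which is (ii);
* `L(E / K, 1) √|Δ_K| / Ω_{E/K}` is a unit at every valuation of `ℂ` above `2`, `E(K)` has odd order,
  the equation is minimal at all finite places of `K` and all the Tamagawa numbers are odd: the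
  2-part of the formula in (iii) (the rationality of the number in (iii) is not claimed).

The theorem is the last step of a development of the starting library (the files
`Pool/Agent/Y696/Na` to `Pool/Agent/Y696/Nh` and `Pool/Agent/Y688`): descent over the fields of
2-power degree, the values of the `L`-functions with characters as sums over division points over
`N`, and a congruence modulo the primes above two for these sums.
-/

set_option autoImplicit false

namespace Pool.Agent.Results.MP_e996df_nt.TwoPartOverQuarticField

open NumberField IsDedekindDomain Pool.Agent.Y696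
open scoped Classical

/-- **The 2-part of the Birch and Swinnerton-Dyer conjecture for `y² + y = x³`** over the abelian
extensions `K` of 2-power degree of `N = ℚ(√-3, √-7)` whose ramified primes divide a modulus that is
composed of primes modulo which `2` is not a cube. (The first part says that the periods in the
definition of `TwoPart` exist.) -/
theorem result :
    (∃ (Λ : PeriodPair) (ω : ℝ), IsPeriods Λ ω) ∧
    (∀ (N K : Type) [Field N] [NumberField N] [Field K] [NumberField K] [Algebra N K]
      [IsGalois N K] (n : ℕ), Module.finrank ℚ N = 4 →
      (∃ a : N, a ^ 2 = -3) → (∃ b : N, b ^ 2 = -7) → Module.finrank N K = 2 ^ n →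
      ∀ (c : 𝓞 N) (art : (𝓞 N ⧸ Ideal.span {c})ˣ →* Gal(K/N)), IsArtin c art →
      (∀ v₀ : HeightOneSpectrum (𝓞 N), c ∈ v₀.asIdeal → ∀ x : 𝓞 N, x ^ 3 - 2 ∉ v₀.asIdeal) →
      TwoPart K) := by
  refine ⟨?_, fun N K _ _ _ _ _ _ n h4 ⟨a, ha⟩ ⟨b, hb⟩ hn c art h hc => all_N h4 ha hb hn h hc⟩
  obtain ⟨Λ, ω, h1, h2, h3⟩ := exists_real
  exact ⟨Λ, ω, h1, h2, h3⟩

end Pool.Agent.Results.MP_e996df_nt.TwoPartOverQuarticField
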